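import Mathlib

/-! Project SA (MP_d3a052_pr): asymptotics of higher moments of random solid angles.
Definitions and the statements of the independent pieces. -/

namespace Pool.Agent.R974.SA

open MeasureTheory ProbabilityTheory Filter Topology
open scoped ENNReal

/-- Euclidean space. -/
abbrev E (n : ℕ) := EuclideanSpace ℝ (Fin n)

/-- The positive hull of `x_1, …, x_m`. -/
def pos {n m : ℕ} (x : Fin m → E n) : Set (E n) :=
  {v | ∃ l : Fin m → ℝ, (∀ i, 0 ≤ l i) ∧ v = ∑ i, l i • x i}

/-- The uniform probability measure on the unit sphere: normalised surface measure. -/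
noncomputable def sph (n : ℕ) : Measure (Metric.sphere (0 : E n) 1) :=
  ((volume : Measure (E n)).toSphere Set.univ)⁻¹ • (volume : Measure (E n)).toSphere

/-- The normalised solid angle `σ(C ∩ S)/σ(S)`. -/
noncomputable def angle {n : ℕ} (C : Set (E n)) : ℝ :=
  (sph n ((fun u : Metric.sphere (0 : E n) 1 => (u : E n)) ⁻¹' C)).toReal

/-- `m(d,k) = E[α_d^k]`. -/
noncomputable def m (d k : ℕ) : ℝ :=
  ∫ U : Fin d → Metric.sphere (0 : E d) 1, (angle (pos (fun i => (U i : E d))))^k
    ∂(Measure.pi fun _ : Fin d => sph d)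

/-- standard Gaussian measure on `ℝ^n` (plain functions). -/
noncomputable def gam (n : ℕ) : Measure (Fin n → ℝ) := Measure.pi fun _ => gaussianReal 0 1

instance (n : ℕ) : IsProbabilityMeasure (gam n) := by unfold gam; infer_instance

/-- `v` is a nonnegative combination of the `U i`. -/
def InPos {n m : ℕ} (U : Fin m → (Fin n → ℝ)) (v : Fin n → ℝ) : Prop :=
  ∃ l : Fin m → ℝ, (∀ i, 0 ≤ l i) ∧ v = ∑ i, l i • U i

/-- `P(V_1, …, V_k ∈ pos(U_1, …, U_d))` for independent standard Gaussian vectors in `ℝ^d`. -/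
noncomputable def PG (d k : ℕ) : ℝ≥0∞ :=
  ((Measure.pi fun _ : Fin d => gam d).prod (Measure.pi fun _ : Fin k => gam d))
    {p | ∀ j, InPos p.1 (p.2 j)}

/-- Piece S: from the sphere to Gaussian vectors. -/
def StmS : Prop := ∀ d k : ℕ, 0 < d → m d k = (PG d k).toReal

/-- Piece D: duality. -/
def StmD : Prop := ∀ d k : ℕ, 0 < d → 0 < k → PG d k = PG k d

end Pool.Agent.R974.SA
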