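import Mathlib
import Pool.Agent.R974.SA.Stm

/-! Gaussian tools. -/

namespace Pool.Agent.R974.SA

open MeasureTheory ProbabilityTheory Filter Topology Complex
open scoped ENNReal

variable {n : ℕ}

/-- dot product -/
def dp (u v : Fin n → ℝ) : ℝ := ∑ j, u j * v j

theorem dp_comm (u v : Fin n → ℝ) : dp u v = dp v u := by
  unfold dp; apply Finset.sum_congr rfl; intro i _; ring

theorem dp_add (u v w : Fin n → ℝ) : dp u (v + w) = dp u v + dp u w := by
  unfold dp; rw [← Finset.sum_add_distrib]; apply Finset.sum_congr rfl; intro i _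
  simp only [Pi.add_apply]; ring

theorem dp_smul (u v : Fin n → ℝ) (c : ℝ) : dp u (c • v) = c * dp u v := by
  unfold dp; rw [Finset.mul_sum]; apply Finset.sum_congr rfl; intro i _
  simp only [Pi.smul_apply, smul_eq_mul]; ring

theorem dp_sub (u v w : Fin n → ℝ) : dp u (v - w) = dp u v - dp u w := by
  unfold dp; rw [← Finset.sum_sub_distrib]; apply Finset.sum_congr rfl; intro i _
  simp only [Pi.sub_apply]; ring

theorem dp_sum {ι : Type*} (s : Finset ι) (u : Fin n → ℝ) (v : ι → Fin n → ℝ) :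
    dp u (∑ i ∈ s, v i) = ∑ i ∈ s, dp u (v i) := by
  classical
  induction s using Finset.induction_on with
  | empty => simp [dp]
  | insert a s ha ih => rw [Finset.sum_insert ha, Finset.sum_insert ha, dp_add, ih]

@[fun_prop]
theorem dp_cont (u : Fin n → ℝ) : Continuous (fun v : Fin n → ℝ => dp u v) := by
  unfold dp; fun_prop

@[fun_prop]
theorem dp_meas (u : Fin n → ℝ) : Measurable (fun v : Fin n → ℝ => dp u v) := (dp_cont u).measurable

theorem gam_exp (t : Fin n → ℝ) :
    ∫ v, cexp ((dp t v : ℝ) * I) ∂(gam n) = cexp (-((dp t t : ℝ) : ℂ)/2) := by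
  unfold gam
  have h1 : ∀ v : Fin n → ℝ, cexp ((dp t v : ℝ) * I) = ∏ j, cexp ((t j : ℂ) * (v j : ℂ) * I) := by
    intro v
    rw [← Complex.exp_sum]
    congr 1
    unfold dp
    push_cast
    rw [Finset.sum_mul]
  simp_rw [h1]
  rw [integral_fintype_prod_eq_prod (fun (j : Fin n) (x : ℝ) => cexp ((t j : ℂ) * (x : ℂ) * I))]
  have h2 : ∀ j, ∫ x, cexp ((t j : ℂ) * (x : ℂ) * I) ∂(gaussianReal 0 1) = cexp (-((t j : ℂ)^2)/2) := by
    intro j
    have := charFun_gaussianReal (μ := 0) (v := 1) (t j)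
    rw [charFun_apply_real] at this
    rw [this]
    congr 1
    simp
    ring
  simp_rw [h2]
  rw [← Complex.exp_sum]
  congr 1
  unfold dp
  push_cast
  rw [← Finset.sum_div, Finset.sum_neg_distrib]
  congr 2
  apply Finset.sum_congr rfl
  intro j _; ring

/-- the law of a unit linear form -/
theorem gam_map_dp (u : Fin n → ℝ) (hu : dp u u = 1) :
    (gam n).map (fun v => dp u v) = gaussianReal 0 1 := by
  have : IsProbabilityMeasure ((gam n).map (fun v => dp u v)) :=
    Measure.isProbabilityMeasure_map (dp_meas u).aemeasurable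
  apply Measure.ext_of_charFun
  funext s
  rw [charFun_apply_real, charFun_gaussianReal, integral_map (dp_meas u).aemeasurable (by fun_prop)]
  have h1 : ∀ v : Fin n → ℝ, cexp ((s : ℂ) * ((dp u v : ℝ) : ℂ) * I) = cexp ((dp (s • u) v : ℝ) * I) := by
    intro v
    rw [dp_comm (s • u) v, dp_smul, dp_comm v u]; push_cast; rfl
  simp_rw [h1]
  rw [gam_exp]
  congr 1
  have : dp (s • u) (s • u) = s^2 := by
    rw [dp_smul, dp_comm, dp_smul, hu]; ring
  rw [this]
  push_cast
  simp
  ring

/-- Decomposition of the Gaussian measure along a unit vector. -/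
theorem gam_split (N : Fin n → ℝ) (hN : dp N N = 1) :
    ((gam n).prod (gaussianReal 0 1)).map (fun p => p.1 - (dp N p.1) • N + p.2 • N) = gam n := by
  have hmeas : Measurable (fun p : (Fin n → ℝ) × ℝ => p.1 - (dp N p.1) • N + p.2 • N) := by
    have : Continuous (fun p : (Fin n → ℝ) × ℝ => p.1 - (dp N p.1) • N + p.2 • N) := by
      have h1 : Continuous (fun p : (Fin n → ℝ) × ℝ => dp N p.1) := (dp_cont N).comp continuous_fst
      fun_prop
    exact this.measurable
  have : IsProbabilityMeasure (((gam n).prod (gaussianReal 0 1)).map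
    (fun p => p.1 - (dp N p.1) • N + p.2 • N)) := Measure.isProbabilityMeasure_map hmeas.aemeasurable
  apply Measure.ext_of_charFunDual
  funext Lf
  rw [charFunDual_apply, charFunDual_apply, integral_map hmeas.aemeasurable (by fun_prop)]
  set t : Fin n → ℝ := fun j => Lf (Pi.single j 1) with ht
  have hL : ∀ v, Lf v = dp t v := by
    intro v
    have : v = ∑ j, v j • (Pi.single j (1:ℝ) : Fin n → ℝ) := by
      funext i
      rw [Finset.sum_apply]
      simp [Pi.single_apply]
    conv_lhs => rw [this]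
    rw [map_sum]
    unfold dp
    apply Finset.sum_congr rfl
    intro j _
    rw [map_smul, smul_eq_mul, mul_comm]
  set τ := dp t N with hτ
  have h1 : ∀ p : (Fin n → ℝ) × ℝ, cexp (((Lf (p.1 - (dp N p.1) • N + p.2 • N) : ℝ) : ℂ) * I) =
      cexp ((dp (t - τ • N) p.1 : ℝ) * I) * cexp ((τ:ℂ) * (p.2 : ℂ) * I) := by
    intro p
    rw [← Complex.exp_add]
    congr 1
    rw [hL, dp_add, dp_sub, dp_smul, dp_smul, ← hτ, dp_comm (t - τ • N), dp_sub, dp_smul, dp_comm p.1 t,
      dp_comm p.1 N]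
    push_cast; ring
  simp_rw [h1]
  rw [integral_prod_mul (fun v : Fin n → ℝ => cexp ((dp (t - τ • N) v : ℝ) * I))
    (fun y : ℝ => cexp ((τ:ℂ) * (y : ℂ) * I)), gam_exp]
  have h2 : ∫ x, cexp ((τ : ℂ) * (x : ℂ) * I) ∂(gaussianReal 0 1) = cexp (-((τ : ℂ)^2)/2) := by
    have := charFun_gaussianReal (μ := 0) (v := 1) τ
    rw [charFun_apply_real] at this
    rw [this]
    congr 1
    simp
    ring
  have h3 : ∀ v : Fin n → ℝ, cexp (((Lf v : ℝ) : ℂ) * I) = cexp ((dp t v : ℝ) * I) := by
    intro v; rw [hL]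
  simp_rw [h3]
  rw [h2, gam_exp, ← Complex.exp_add]
  congr 1
  have h4 : dp (t - τ • N) (t - τ • N) = dp t t - τ^2 := by
    rw [dp_sub, dp_smul, dp_comm (t - τ • N) t, dp_sub, dp_smul, ← hτ, dp_comm (t - τ • N) N, dp_sub,
      dp_smul, hN, dp_comm N t, ← hτ]
    ring
  rw [h4]
  push_cast; ring

/-- Integral form of the decomposition. -/
theorem lint_split (N : Fin n → ℝ) (hN : dp N N = 1) (F : (Fin n → ℝ) → ℝ → ℝ≥0∞)
    (hF : Measurable (Function.uncurry F)) :
    ∫⁻ v, F (v - (dp N v) • N) (dp N v) ∂(gam n) =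
      ∫⁻ v, ∫⁻ y, F (v - (dp N v) • N) y ∂(gaussianReal 0 1) ∂(gam n) := by
  have hmeas : Measurable (fun p : (Fin n → ℝ) × ℝ => p.1 - (dp N p.1) • N + p.2 • N) := by
    have : Continuous (fun p : (Fin n → ℝ) × ℝ => p.1 - (dp N p.1) • N + p.2 • N) := by
      have h1 : Continuous (fun p : (Fin n → ℝ) × ℝ => dp N p.1) := (dp_cont N).comp continuous_fst
      fun_prop
    exact this.measurable
  have hproj : Measurable (fun v : Fin n → ℝ => v - (dp N v) • N) := by
    have : Continuous (fun v : Fin n → ℝ => v - (dp N v) • N) := by fun_prop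
    exact this.measurable
  have hG : Measurable (fun v : Fin n → ℝ => F (v - (dp N v) • N) (dp N v)) :=
    hF.comp (hproj.prodMk (dp_meas N))
  conv_lhs => rw [← gam_split N hN]
  rw [lintegral_map hG hmeas]
  have e : ∀ p : (Fin n → ℝ) × ℝ, F ((p.1 - (dp N p.1) • N + p.2 • N) -
      (dp N (p.1 - (dp N p.1) • N + p.2 • N)) • N) (dp N (p.1 - (dp N p.1) • N + p.2 • N)) =
      F (p.1 - (dp N p.1) • N) p.2 := by
    intro p
    have h1 : dp N (p.1 - (dp N p.1) • N + p.2 • N) = p.2 := by
      rw [dp_add, dp_sub, dp_smul, dp_smul, hN]; ring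
    rw [h1]
    congr 1
    rw [add_sub_cancel_right]
  simp_rw [e]
  rw [lintegral_prod _ (by
    have : Measurable (fun p : (Fin n → ℝ) × ℝ => F (p.1 - (dp N p.1) • N) p.2) :=
      hF.comp ((hproj.comp measurable_fst).prodMk measurable_snd)
    exact this.aemeasurable)]

end Pool.Agent.R974.SA
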