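import Mathlib
import Pool.Agent.R974.SA.G

/-! Linear algebra. -/

namespace Pool.Agent.R974.SA

open MeasureTheory ProbabilityTheory Filter Topology Set
open scoped ENNReal

variable {n : ℕ}

theorem dp_self_nonneg (u : Fin n → ℝ) : 0 ≤ dp u u := by
  unfold dp; apply Finset.sum_nonneg; intro i _; exact mul_self_nonneg _

theorem dp_self_pos {u : Fin n → ℝ} (hu : u ≠ 0) : 0 < dp u u := by
  obtain ⟨i, hi⟩ := Function.ne_iff.mp hu
  unfold dp
  apply Finset.sum_pos'
  · intro i _; exact mul_self_nonneg _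
  · exact ⟨i, Finset.mem_univ _, mul_self_pos.mpr hi⟩

theorem dp_smul_left (c : ℝ) (u v : Fin n → ℝ) : dp (c • u) v = c * dp u v := by
  rw [dp_comm, dp_smul, dp_comm]

theorem dp_zero_left (v : Fin n → ℝ) : dp 0 v = 0 := by unfold dp; simp

theorem exists_unit {u : Fin n → ℝ} (hu : u ≠ 0) : ∃ r : ℝ, 0 < r ∧ dp (r • u) (r • u) = 1 := by
  have h := dp_self_pos hu
  refine ⟨(√(dp u u))⁻¹, by positivity, ?_⟩
  rw [dp_smul, dp_smul_left, ← mul_assoc, ← mul_inv, Real.mul_self_sqrt h.le, inv_mul_cancel₀ h.ne']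

theorem dual {K : ℕ} (A : Fin K → Fin (K+1) → ℝ) (hA : LinearIndependent ℝ A) :
    ∃ (N : Fin (K+1) → ℝ) (u : Fin K → Fin (K+1) → ℝ), dp N N = 1 ∧ (∀ j, dp (u j) (u j) = 1) ∧
      (∀ j, dp (u j) N = 0) ∧ (∃ w, ∀ j, dp (u j) w < 0) ∧
      ∀ x v, dp N x ≠ 0 → (InPos (Fin.cons x A : Fin (K+1) → Fin (K+1) → ℝ) v ↔
        0 ≤ dp N v / dp N x ∧ ∀ j, dp N v / dp N x * dp (u j) x ≤ dp (u j) v) := by
  classical
  -- the normal
  obtain ⟨N0, hN0, hN00⟩ : ∃ N0 : Fin (K+1) → ℝ, (∀ i, dp (A i) N0 = 0) ∧ N0 ≠ 0 := by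
    have h1 : (Matrix.mulVecLin (Matrix.of A)).ker ≠ ⊥ := by
      apply LinearMap.ker_ne_bot_of_finrank_lt
      simp
    obtain ⟨b, hb, hb0⟩ := Submodule.exists_mem_ne_zero_of_ne_bot h1
    refine ⟨b, ?_, hb0⟩
    intro i
    have h2 : (Matrix.of A).mulVec b = 0 := by simpa using hb
    exact congrFun h2 i
  obtain ⟨r, hr, hr1⟩ := exists_unit hN00
  set N := r • N0 with hN
  have hAN : ∀ i, dp (A i) N = 0 := by
    intro i; rw [hN, dp_smul, hN0, mul_zero]
  have hNA : ∀ i, dp N (A i) = 0 := fun i => by rw [dp_comm]; exact hAN i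
  -- the matrix
  set M : Matrix (Fin (K+1)) (Fin (K+1)) ℝ := Matrix.of (Fin.cons N A) with hM
  have hM0 : M 0 = N := by rw [hM]; rfl
  have hMs : ∀ i : Fin K, M i.succ = A i := fun i => by rw [hM]; rfl
  have hunit : IsUnit M := by
    rw [← Matrix.linearIndependent_rows_iff_isUnit]
    show LinearIndependent ℝ (Fin.cons N A : Fin (K+1) → Fin (K+1) → ℝ)
    rw [linearIndependent_finCons]
    refine ⟨hA, ?_⟩
    intro hmem
    rw [Submodule.mem_span_range_iff_exists_fun] at hmem
    obtain ⟨c, hc⟩ := hmem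
    have h3 : dp N N = 0 := by
      conv_lhs => rw [← hc]
      rw [hc, ← hc, dp_sum]
      apply Finset.sum_eq_zero
      intro i _
      rw [dp_smul, hc, hNA, mul_zero]
    rw [h3] at hr1
    exact zero_ne_one hr1
  have hdet : IsUnit M.det := (Matrix.isUnit_iff_isUnit_det M).mp hunit
  set W := M⁻¹ with hW
  have hMW : M * W = 1 := Matrix.mul_nonsing_inv M hdet
  have hWM : W * M = 1 := Matrix.nonsing_inv_mul M hdet
  have H1 : ∀ i j, dp (fun l => W l j) (M i) = if i = j then 1 else 0 := by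
    intro i j
    have h4 : (M * W) i j = (1 : Matrix (Fin (K+1)) (Fin (K+1)) ℝ) i j := by rw [hMW]
    rw [Matrix.mul_apply, Matrix.one_apply] at h4
    rw [dp_comm]
    exact h4
  have H2 : ∀ v : Fin (K+1) → ℝ, v = ∑ j, dp (fun l => W l j) v • M j := by
    intro v
    funext l
    rw [Finset.sum_apply]
    have h5 : ∀ j, (dp (fun l => W l j) v • M j) l = ∑ m, v m * (W m j * M j l) := by
      intro j
      simp only [Pi.smul_apply, smul_eq_mul]
      unfold dp
      rw [Finset.sum_mul]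
      apply Finset.sum_congr rfl; intro m _; ring
    simp_rw [h5]
    rw [Finset.sum_comm]
    have h6 : ∀ m, ∑ j, v m * (W m j * M j l) = v m * (1 : Matrix (Fin (K+1)) (Fin (K+1)) ℝ) m l := by
      intro m
      rw [← Finset.mul_sum, ← hWM, Matrix.mul_apply]
    simp_rw [h6, Matrix.one_apply]
    simp
  set u0 : Fin K → Fin (K+1) → ℝ := fun i => (fun l => W l i.succ) with hu0
  have hu0N : ∀ j, dp (u0 j) N = 0 := by
    intro j
    have := H1 0 j.succ
    rw [hM0] at this
    rw [hu0]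
    simp only
    rw [this, if_neg (Fin.succ_ne_zero j).symm]
  have hu0A : ∀ j i, dp (u0 j) (A i) = if i = j then 1 else 0 := by
    intro j i
    have := H1 i.succ j.succ
    rw [hMs] at this
    rw [hu0]
    simp only
    rw [this]
    simp
  have rep : ∀ v, v = dp N v • N + ∑ i, dp (u0 i) v • A i := by
    intro v
    have h7 := H2 v
    rw [Fin.sum_univ_succ, hM0] at h7
    have h8 : ∀ i : Fin K, dp (fun l => W l i.succ) v • M i.succ = dp (u0 i) v • A i := by
      intro i; rw [hMs]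
    simp_rw [h8] at h7
    have h9 : dp N v = dp (fun l => W l 0) v := by
      conv_lhs => rw [h7]
      rw [dp_add, dp_smul, dp_sum, hr1, mul_one]
      rw [Finset.sum_eq_zero, add_zero]
      intro i _
      rw [dp_smul, hNA, mul_zero]
    rw [h9]; exact h7
  have hu00 : ∀ j, u0 j ≠ 0 := by
    intro j h
    have := hu0A j j
    rw [h, dp_zero_left, if_pos rfl] at this
    exact zero_ne_one this
  choose ρ hρ hρ1 using fun j => exists_unit (hu00 j)
  refine ⟨N, fun j => ρ j • u0 j, hr1, hρ1, ?_, ?_, ?_⟩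
  · intro j; rw [dp_smul_left, hu0N, mul_zero]
  · refine ⟨-∑ i, A i, ?_⟩
    intro j
    have h10 : dp (u0 j) (-∑ i, A i) = -1 := by
      have : -∑ i, A i = (-1:ℝ) • ∑ i, A i := by simp
      rw [this, dp_smul, dp_sum]
      simp_rw [hu0A]
      simp
    rw [dp_smul_left, h10]
    have := hρ j
    linarith
  · intro x v hx
    have hcond : (∀ j, dp N v / dp N x * dp (ρ j • u0 j) x ≤ dp (ρ j • u0 j) v) ↔
        (∀ j, dp N v / dp N x * dp (u0 j) x ≤ dp (u0 j) v) := by
      apply forall_congr'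
      intro j
      rw [dp_smul_left (ρ j) (u0 j) x, dp_smul_left (ρ j) (u0 j) v]
      have h11 : dp N v / dp N x * (ρ j * dp (u0 j) x) = ρ j * (dp N v / dp N x * dp (u0 j) x) := by ring
      rw [h11]
      exact mul_le_mul_iff_right₀ (hρ j)
    rw [hcond]
    constructor
    · rintro ⟨l, hl, hv⟩
      rw [Fin.sum_univ_succ] at hv
      simp only [Fin.cons_zero, Fin.cons_succ] at hv
      have h12 : dp N v = l 0 * dp N x := by
        rw [hv, dp_add, dp_smul, dp_sum, Finset.sum_eq_zero, add_zero]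
        intro i _
        rw [dp_smul, hNA, mul_zero]
      have h13 : dp N v / dp N x = l 0 := by rw [h12]; field_simp
      have h14 : ∀ j, dp (u0 j) v = l 0 * dp (u0 j) x + l j.succ := by
        intro j
        rw [hv, dp_add, dp_smul, dp_sum]
        congr 1
        simp_rw [dp_smul, hu0A]
        simp
      rw [h13]
      refine ⟨hl 0, ?_⟩
      intro j
      rw [h14]
      linarith [hl j.succ]
    · rintro ⟨hs, hj⟩
      set s := dp N v / dp N x with hsd
      have hsx : s * dp N x = dp N v := by rw [hsd]; field_simp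
      refine ⟨Fin.cons s (fun i => dp (u0 i) v - s * dp (u0 i) x), ?_, ?_⟩
      · intro i
        refine Fin.cases ?_ ?_ i
        · simpa using hs
        · intro j
          simp only [Fin.cons_succ]
          linarith [hj j]
      · rw [Fin.sum_univ_succ]
        simp only [Fin.cons_zero, Fin.cons_succ]
        have h15 : s • x = (dp N v) • N + ∑ i, (s * dp (u0 i) x) • A i := by
          conv_lhs => rw [rep x]
          rw [smul_add, smul_smul, hsx, Finset.smul_sum]
          congr 1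
          apply Finset.sum_congr rfl
          intro i _
          rw [smul_smul]
        rw [h15, add_assoc, ← Finset.sum_add_distrib]
        conv_lhs => rw [rep v]
        congr 1
        apply Finset.sum_congr rfl
        intro i _
        rw [← add_smul]
        congr 1; ring

theorem gam_hyper (N : Fin n → ℝ) (hN : dp N N = 1) : gam n {v | dp N v = 0} = 0 := by
  have h1 := gam_map_dp N hN
  have h2 : gam n {v | dp N v = 0} = ((gam n).map (fun v => dp N v)) {0} := by
    rw [Measure.map_apply (dp_meas N) (measurableSet_singleton _)]; rfl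
  rw [h2, h1]
  have := nullSingletonClass_gaussianReal (μ := 0) (v := 1) one_ne_zero
  exact measure_singleton 0

theorem dep {n : ℕ} (X : Fin n → Fin n → ℝ) (hX : ¬ LinearIndependent ℝ X) :
    gam n {v | InPos X v} = 0 := by
  classical
  have h1 : ¬ IsUnit (Matrix.of X) := by
    rw [← Matrix.linearIndependent_rows_iff_isUnit]; exact hX
  rw [Matrix.isUnit_iff_isUnit_det, isUnit_iff_ne_zero, not_not, ← Matrix.exists_mulVec_eq_zero_iff] at h1
  obtain ⟨N0, hN0, h0⟩ := h1
  obtain ⟨r, hr, hr1⟩ := exists_unit hN0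
  refine measure_mono_null ?_ (gam_hyper _ hr1)
  rintro v ⟨l, _, hv⟩
  show dp (r • N0) v = 0
  rw [hv, dp_sum]
  apply Finset.sum_eq_zero
  intro i _
  have h2 : dp (X i) N0 = 0 := congrFun h0 i
  rw [dp_smul, dp_smul_left, dp_comm, h2, mul_zero, mul_zero]

theorem inpos_meas (n m : ℕ) :
    MeasurableSet {p : (Fin m → Fin n → ℝ) × (Fin n → ℝ) | InPos p.1 p.2} := by
  have h1 : {p : (Fin m → Fin n → ℝ) × (Fin n → ℝ) | InPos p.1 p.2} =
      ⋃ M : ℕ, {p | ∃ l : Fin m → ℝ, (∀ i, 0 ≤ l i ∧ l i ≤ M) ∧ p.2 = ∑ i, l i • p.1 i} := by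
    ext p
    simp only [Set.mem_iUnion]
    constructor
    · rintro ⟨l, hl, hv⟩
      obtain ⟨M, hM⟩ := exists_nat_ge (∑ i, l i)
      refine ⟨M, l, fun i => ⟨hl i, ?_⟩, hv⟩
      exact (Finset.single_le_sum (fun j _ => hl j) (Finset.mem_univ i)).trans hM
    · rintro ⟨M, l, hl, hv⟩
      exact ⟨l, fun i => (hl i).1, hv⟩
  rw [h1]
  apply MeasurableSet.iUnion
  intro M
  apply IsClosed.measurableSet
  set C : Set (Fin m → ℝ) := Set.Icc 0 (fun _ => (M:ℝ)) with hC
  have hcomp : CompactSpace C := isCompact_iff_compactSpace.mp isCompact_Icc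
  have hcl : IsClosed {q : C × ((Fin m → Fin n → ℝ) × (Fin n → ℝ)) | q.2.2 = ∑ i, (q.1 : Fin m → ℝ) i • q.2.1 i} := by
    apply isClosed_eq
    · fun_prop
    · apply continuous_finsetSum
      intro i _
      exact ((continuous_apply i).comp (continuous_subtype_val.comp continuous_fst)).smul
        ((continuous_apply i).comp (continuous_fst.comp continuous_snd))
  have := isClosedMap_snd_of_compactSpace _ hcl
  convert this using 1
  ext p
  constructor
  · rintro ⟨l, hl, hv⟩
    exact ⟨(⟨l, ⟨fun i => (hl i).1, fun i => (hl i).2⟩⟩, p), hv, rfl⟩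
  · rintro ⟨⟨⟨l, hl⟩, q⟩, hq, rfl⟩
    exact ⟨l, fun i => ⟨hl.1 i, hl.2 i⟩, hq⟩

/-- the Gaussian angle -/
noncomputable def al {n m : ℕ} (X : Fin m → Fin n → ℝ) : ℝ≥0∞ := gam n {v | InPos X v}

@[fun_prop]
theorem al_meas {n m : ℕ} : Measurable (al : (Fin m → Fin n → ℝ) → ℝ≥0∞) := by
  exact measurable_measure_prodMk_left (inpos_meas n m)

end Pool.Agent.R974.SA
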