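import Mathlib
import Pool.Agent.R974.SA.G

/-! One-dimensional analysis: the deficit as a function of the height `z`. -/

namespace Pool.Agent.R974.SA

open MeasureTheory ProbabilityTheory Filter Topology Set
open scoped ENNReal

/-- Gaussian density -/
noncomputable def ph (y : ℝ) : ℝ := gaussianPDFReal 0 1 y

theorem ph_eq (y : ℝ) : ph y = (√(2*Real.pi))⁻¹ * Real.exp (-y^2/2) := by
  unfold ph gaussianPDFReal; simp

theorem ph_pos (y : ℝ) : 0 < ph y := by rw [ph_eq]; positivity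

theorem ph_anti {a b : ℝ} (ha : 0 ≤ a) (hab : a ≤ b) : ph b ≤ ph a := by
  rw [ph_eq, ph_eq]
  apply mul_le_mul_of_nonneg_left _ (by positivity)
  apply Real.exp_le_exp.mpr
  have : a^2 ≤ b^2 := pow_le_pow_left₀ ha hab 2
  linarith

theorem ph_le (y : ℝ) : ph y ≤ ph 0 := by
  rw [ph_eq, ph_eq]
  apply mul_le_mul_of_nonneg_left _ (by positivity)
  apply Real.exp_le_exp.mpr
  have : 0 ≤ y^2 := sq_nonneg y
  simp; linarith

theorem ph_abs (y : ℝ) : ph |y| = ph y := by rw [ph_eq, ph_eq, sq_abs]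

theorem ph_cont : Continuous ph := by
  have : ph = fun y => (√(2*Real.pi))⁻¹ * Real.exp (-y^2/2) := by funext y; exact ph_eq y
  rw [this]; fun_prop

@[fun_prop]
theorem ph_meas : Measurable ph := ph_cont.measurable

theorem ph0_le : ph 0 ≤ 1/2 := by
  rw [ph_eq]
  have h1 : (2:ℝ) ≤ √(2*Real.pi) := by
    apply Real.le_sqrt_of_sq_le
    have := Real.pi_gt_three; linarith
  have h2 : (√(2*Real.pi))⁻¹ ≤ 2⁻¹ := inv_anti₀ (by norm_num) h1
  have h3 : Real.exp (-(0:ℝ)^2/2) = 1 := by norm_num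
  rw [h3, mul_one]; linarith

/-- the standard Gaussian measure -/
noncomputable abbrev g1 : Measure ℝ := gaussianReal 0 1

theorem g1_eq : g1 = volume.withDensity (fun y => ENNReal.ofReal (ph y)) := by
  unfold g1
  rw [gaussianReal_of_var_ne_zero 0 one_ne_zero]; rfl

theorem g1_apply {s : Set ℝ} (hs : MeasurableSet s) : g1 s = ∫⁻ y in s, ENNReal.ofReal (ph y) := by
  rw [g1_eq, withDensity_apply _ hs]

theorem g1_lint (f : ℝ → ℝ≥0∞) (hf : Measurable f) : ∫⁻ y, f y ∂g1 = ∫⁻ y, ENNReal.ofReal (ph y) * f y := by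
  rw [g1_eq, lintegral_withDensity_eq_lintegral_mul _ (by fun_prop) hf]
  rfl

theorem g1_Icc_le {ρ : ℝ} (_hρ : 0 ≤ ρ) : g1 {z | |z| ≤ ρ} ≤ ENNReal.ofReal (2 * ph 0 * ρ) := by
  have h : {z : ℝ | |z| ≤ ρ} = Icc (-ρ) ρ := by
    ext z
    show |z| ≤ ρ ↔ -ρ ≤ z ∧ z ≤ ρ
    exact abs_le
  rw [h, g1_apply measurableSet_Icc]
  calc ∫⁻ y in Icc (-ρ) ρ, ENNReal.ofReal (ph y) ≤ ∫⁻ y in Icc (-ρ) ρ, ENNReal.ofReal (ph 0) := by
        apply lintegral_mono
        intro y; exact ENNReal.ofReal_le_ofReal (ph_le y)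
    _ = ENNReal.ofReal (ph 0) * volume (Icc (-ρ) ρ) := setLIntegral_const _ _
    _ = ENNReal.ofReal (2 * ph 0 * ρ) := by
        rw [Real.volume_Icc, ← ENNReal.ofReal_mul (ph_pos 0).le]; congr 1; ring

theorem g1_abs_ge {ρ : ℝ} (hρ : 0 ≤ ρ) : ENNReal.ofReal (2 * ph ρ * ρ) ≤ g1 {z | 0 < |z| ∧ |z| ≤ ρ} := by
  have h : Ico (-ρ) 0 ∪ Ioc 0 ρ ⊆ {z : ℝ | 0 < |z| ∧ |z| ≤ ρ} := by
    intro z hz
    rcases hz with hz | hz
    · refine ⟨abs_pos.mpr hz.2.ne, ?_⟩
      rw [abs_of_neg hz.2]; linarith [hz.1]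
    · refine ⟨abs_pos.mpr hz.1.ne', ?_⟩
      rw [abs_of_pos hz.1]; exact hz.2
  refine le_trans ?_ (measure_mono h)
  have hd : Disjoint (Ico (-ρ) 0) (Ioc 0 ρ) := by
    rw [Set.disjoint_left]
    intro z hz hz'
    linarith [hz.2, hz'.1]
  rw [measure_union hd measurableSet_Ioc, g1_apply measurableSet_Ico, g1_apply measurableSet_Ioc]
  have a1 : ENNReal.ofReal (ph ρ) * volume (Ico (-ρ) 0) ≤ ∫⁻ y in Ico (-ρ) 0, ENNReal.ofReal (ph y) := by
    rw [← setLIntegral_const]
    apply setLIntegral_mono' measurableSet_Ico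
    intro y hy
    apply ENNReal.ofReal_le_ofReal
    rw [← ph_abs y]
    apply ph_anti (abs_nonneg _)
    rw [abs_of_neg hy.2]; linarith [hy.1]
  have a2 : ENNReal.ofReal (ph ρ) * volume (Ioc 0 ρ) ≤ ∫⁻ y in Ioc 0 ρ, ENNReal.ofReal (ph y) := by
    rw [← setLIntegral_const]
    apply setLIntegral_mono' measurableSet_Ioc
    intro y hy
    apply ENNReal.ofReal_le_ofReal
    exact ph_anti hy.1.le hy.2
  refine le_trans (le_of_eq ?_) (add_le_add a1 a2)
  rw [Real.volume_Ico, Real.volume_Ioc, ← ENNReal.ofReal_mul (ph_pos ρ).le,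
    ← ENNReal.ofReal_mul (ph_pos ρ).le, ← ENNReal.ofReal_add]
  · congr 1; ring
  · apply mul_nonneg (ph_pos ρ).le; linarith
  · apply mul_nonneg (ph_pos ρ).le; linarith

theorem g1_Ioc_ge {τ : ℝ} (h1 : τ ≤ 1) : ENNReal.ofReal (ph 1 * τ) ≤ g1 (Ioc 0 τ) := by
  rw [g1_apply measurableSet_Ioc]
  calc ENNReal.ofReal (ph 1 * τ) = ENNReal.ofReal (ph 1) * volume (Ioc 0 τ) := by
        rw [Real.volume_Ioc, ← ENNReal.ofReal_mul (ph_pos 1).le, sub_zero]
    _ = ∫⁻ y in Ioc 0 τ, ENNReal.ofReal (ph 1) := (setLIntegral_const _ _).symm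
    _ ≤ _ := by
        apply setLIntegral_mono' measurableSet_Ioc
        intro y hy
        apply ENNReal.ofReal_le_ofReal
        exact ph_anti hy.1.le (hy.2.trans h1)

/-- deficit -/
noncomputable def DD (H : ℝ → ℝ≥0∞) (z : ℝ) : ℝ≥0∞ := ∫⁻ y in Ioi (0:ℝ), H (y/|z|) ∂g1

/-- normalised deficit -/
noncomputable def gg (H : ℝ → ℝ≥0∞) (r : ℝ) : ℝ≥0∞ := ∫⁻ s in Ioi (0:ℝ), H s * ENNReal.ofReal (ph (r*s))

theorem DD_eq {H : ℝ → ℝ≥0∞} (hH : Measurable H) {z : ℝ} (hz : z ≠ 0) :
    DD H z = ENNReal.ofReal |z| * gg H |z| := by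
  have hr : 0 < |z| := abs_pos.mpr hz
  unfold DD gg
  rw [g1_eq, setLIntegral_withDensity_eq_setLIntegral_mul _ (by fun_prop)
    (by exact hH.comp (measurable_id.div_const _)) measurableSet_Ioi]
  have e : ∀ f : ℝ → ℝ≥0∞, Measurable f → ∫⁻ y, f y = ENNReal.ofReal |z| * ∫⁻ s, f (|z| * s) := by
    intro f hf
    have h1 := Real.smul_map_volume_mul_left hr.ne'
    conv_lhs => rw [← h1]
    rw [lintegral_smul_measure, lintegral_map hf (measurable_const_mul _), abs_abs, smul_eq_mul]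
  rw [← lintegral_indicator measurableSet_Ioi, e _ (Measurable.indicator (by
    exact (by fun_prop : Measurable (fun y => ENNReal.ofReal (ph y))).mul (hH.comp (measurable_id.div_const _)))
    measurableSet_Ioi), ← lintegral_indicator measurableSet_Ioi]
  congr 1
  apply lintegral_congr
  intro s
  by_cases hs : 0 < s
  · have h1 : |z| * s ∈ Ioi (0:ℝ) := mul_pos hr hs
    have h2 : s ∈ Ioi (0:ℝ) := hs
    rw [indicator_of_mem h1, indicator_of_mem h2]
    simp only [Pi.mul_apply]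
    rw [mul_div_cancel_left₀ s hr.ne', mul_comm]
  · have h1 : |z| * s ∉ Ioi (0:ℝ) := by
      intro h
      have : 0 < |z| * s := h
      exact hs ((pos_iff_pos_of_mul_pos this).mp hr)
    have h2 : s ∉ Ioi (0:ℝ) := hs
    rw [indicator_of_notMem h1, indicator_of_notMem h2]

theorem gg_anti {H : ℝ → ℝ≥0∞} {r r' : ℝ} (h0 : 0 ≤ r) (h : r ≤ r') : gg H r' ≤ gg H r := by
  unfold gg
  apply setLIntegral_mono' measurableSet_Ioi
  intro s hs
  have hs' : 0 < s := hs
  apply mul_le_mul_right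
  apply ENNReal.ofReal_le_ofReal
  exact ph_anti (by positivity) (mul_le_mul_of_nonneg_right h hs'.le)

theorem gg_le {H : ℝ → ℝ≥0∞} (hH : Measurable H) (r : ℝ) :
    gg H r ≤ ENNReal.ofReal (ph 0) * ∫⁻ s in Ioi (0:ℝ), H s := by
  unfold gg
  rw [← lintegral_const_mul _ hH]
  apply lintegral_mono
  intro s
  simp only
  rw [mul_comm]
  exact mul_le_mul_left (ENNReal.ofReal_le_ofReal (ph_le _)) _

theorem gg_tendsto {H : ℝ → ℝ≥0∞} (hH : Measurable H) :
    Tendsto (fun n : ℕ => gg H (1/((n:ℝ)+1))) atTop (𝓝 (ENNReal.ofReal (ph 0) * ∫⁻ s in Ioi (0:ℝ), H s)) := by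
  unfold gg
  rw [← lintegral_const_mul _ hH]
  apply lintegral_tendsto_of_tendsto_of_monotone
  · intro n
    exact (hH.mul (by fun_prop)).aemeasurable
  · filter_upwards [ae_restrict_mem measurableSet_Ioi] with s hs
    have hs' : 0 < s := hs
    intro i j hij
    apply mul_le_mul_right
    apply ENNReal.ofReal_le_ofReal
    apply ph_anti (by positivity)
    apply mul_le_mul_of_nonneg_right _ hs'.le
    apply one_div_le_one_div_of_le (by positivity)
    have : (i:ℝ) ≤ j := by exact_mod_cast hij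
    linarith
  · refine Eventually.of_forall (fun s => ?_)
    rw [mul_comm (ENNReal.ofReal (ph 0))]
    have h1 : Tendsto (fun n : ℕ => ENNReal.ofReal (ph (1/((n:ℝ)+1) * s))) atTop (𝓝 (ENNReal.ofReal (ph 0))) := by
      apply ENNReal.tendsto_ofReal
      have h2 : Tendsto (fun n : ℕ => 1/((n:ℝ)+1) * s) atTop (𝓝 0) := by
        have := (tendsto_one_div_add_atTop_nhds_zero_nat (𝕜 := ℝ)).mul_const s
        simpa using this
      exact (ph_cont.tendsto 0).comp h2
    by_cases h0 : H s = ⊤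
    · rw [h0]
      have hp : ∀ y, ENNReal.ofReal (ph y) ≠ 0 := fun y => by simpa using ph_pos y
      simp only [ENNReal.top_mul (hp _)]
      exact tendsto_const_nhds
    · exact ENNReal.Tendsto.const_mul h1 (Or.inr h0)

/-- universal constant -/
noncomputable def c0 : ℝ := (g1 (Iio (-1))).toReal * ph 1

theorem c0_pos : 0 < c0 := by
  unfold c0
  apply mul_pos _ (ph_pos 1)
  apply ENNReal.toReal_pos _ (measure_ne_top _ _)
  intro h0
  have := gaussianReal_absolutelyContinuous' 0 (one_ne_zero) h0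
  rw [Real.volume_Iio] at this
  exact ENNReal.top_ne_zero this

/-- lower bound for the deficit -/
theorem DD_lower {H : ℝ → ℝ≥0∞} {L : ℝ} (hL : 0 < L)
    (hlow : ∀ s, 0 < s → g1 (Iio (-(s*L))) ≤ H s) {z : ℝ} (hz : z ≠ 0) :
    ENNReal.ofReal (c0 * min (|z|/L) 1) ≤ DD H z := by
  have hr : 0 < |z| := abs_pos.mpr hz
  set τ := min (|z|/L) 1 with hτ
  have hτ0 : 0 < τ := lt_min (by positivity) one_pos
  have h1 : ∀ y ∈ Ioc 0 τ, g1 (Iio (-1)) ≤ H (y/|z|) := by
    intro y hy
    have hy0 : 0 < y := hy.1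
    refine le_trans ?_ (hlow (y/|z|) (by positivity))
    apply measure_mono
    intro x hx
    have hx' : x < -1 := hx
    show x < -(y/|z| * L)
    have : y/|z| * L ≤ 1 := by
      have h2 : y ≤ |z|/L := hy.2.trans (min_le_left _ _)
      rw [le_div_iff₀ hL] at h2
      rw [div_mul_eq_mul_div, div_le_one hr]; exact h2
    linarith
  unfold DD
  calc ENNReal.ofReal (c0 * τ) = g1 (Iio (-1)) * ENNReal.ofReal (ph 1 * τ) := by
        unfold c0
        rw [mul_assoc, ENNReal.ofReal_mul ENNReal.toReal_nonneg, ENNReal.ofReal_toReal (measure_ne_top _ _)]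
    _ ≤ g1 (Iio (-1)) * g1 (Ioc 0 τ) := mul_le_mul_right (g1_Ioc_ge (min_le_right _ _)) _
    _ = ∫⁻ y in Ioc 0 τ, g1 (Iio (-1)) ∂g1 := (setLIntegral_const _ _).symm
    _ ≤ ∫⁻ y in Ioc 0 τ, H (y/|z|) ∂g1 := setLIntegral_mono' measurableSet_Ioc h1
    _ ≤ ∫⁻ y in Ioi 0, H (y/|z|) ∂g1 := lintegral_mono_set Ioc_subset_Ioi_self

/-- domination -/
theorem dom {H : ℝ → ℝ≥0∞} {L : ℝ} (hL : 0 < L)
    (hlow : ∀ s, 0 < s → g1 (Iio (-(s*L))) ≤ H s) {t : ℝ} (ht : 0 < t) :
    g1 {z | DD H z ≤ ENNReal.ofReal t} ≤ ENNReal.ofReal ((L+1)/c0 * t) := by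
  have hc := c0_pos
  by_cases h : t < c0
  · have hsub : {z | DD H z ≤ ENNReal.ofReal t} ⊆ {z : ℝ | |z| ≤ L/c0 * t} := by
      intro z hz
      have hz' : DD H z ≤ ENNReal.ofReal t := hz
      show |z| ≤ L/c0 * t
      by_cases hz0 : z = 0
      · rw [hz0]; simp; positivity
      · have h1 := (DD_lower hL hlow hz0).trans hz'
        rw [ENNReal.ofReal_le_ofReal_iff ht.le] at h1
        have h2 : min (|z|/L) 1 < 1 := by
          by_contra hcon
          push Not at hcon
          have : c0 * 1 ≤ c0 * min (|z|/L) 1 := mul_le_mul_of_nonneg_left hcon hc.le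
          linarith
        have h3 : min (|z|/L) 1 = |z|/L := by
          rcases min_choice (|z|/L) 1 with h4 | h4
          · exact h4
          · rw [h4] at h2; exact absurd h2 (lt_irrefl _)
        rw [h3] at h1
        have : c0 * (|z|/L) = c0/L * |z| := by ring
        rw [this] at h1
        have h5 : |z| = L/c0 * (c0/L * |z|) := by field_simp
        rw [h5]
        exact mul_le_mul_of_nonneg_left h1 (by positivity)
    refine (measure_mono hsub).trans ((g1_Icc_le (by positivity)).trans ?_)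
    apply ENNReal.ofReal_le_ofReal
    have := ph0_le
    have h6 : 0 ≤ L/c0 * t := by positivity
    have h7 : (L+1)/c0 * t = L/c0 * t + 1/c0 * t := by ring
    have h8 : 0 ≤ 1/c0 * t := by positivity
    nlinarith
  · push Not at h
    refine prob_le_one.trans ?_
    rw [← ENNReal.ofReal_one]
    apply ENNReal.ofReal_le_ofReal
    have h1 : 1 ≤ t/c0 := by rw [le_div_iff₀ hc]; linarith
    have h7 : (L+1)/c0 * t = L * (t/c0) + t/c0 := by ring
    have h8 : 0 ≤ L * (t/c0) := by positivity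
    linarith

/-- the limit -/
theorem limit {H : ℝ → ℝ≥0∞} (hH : Measurable H) {L : ℝ} (hL : 0 < L)
    (hlow : ∀ s, 0 < s → g1 (Iio (-(s*L))) ≤ H s) :
    Tendsto (fun t : ℝ => g1 {z | DD H z ≤ ENNReal.ofReal t} / ENNReal.ofReal t) (𝓝[>] 0)
      (𝓝 (2 / ∫⁻ s in Ioi (0:ℝ), H s)) := by
  have hc := c0_pos
  have hp0 := ph_pos 0
  set I := ∫⁻ s in Ioi (0:ℝ), H s with hI
  have hIpos : 0 < I := by
    rw [hI]
    have h1 : g1 (Iio (-1)) * volume (Ioc 0 (1/L)) ≤ ∫⁻ s in Ioc 0 (1/L), H s := by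
      rw [← setLIntegral_const]
      apply setLIntegral_mono' measurableSet_Ioc
      intro s hs
      refine le_trans ?_ (hlow s hs.1)
      apply measure_mono
      intro x hx
      have hx' : x < -1 := hx
      show x < -(s*L)
      have : s * L ≤ 1 := by
        have := hs.2
        rw [le_div_iff₀ hL] at this; exact this
      linarith
    refine lt_of_lt_of_le ?_ (h1.trans (lintegral_mono_set Ioc_subset_Ioi_self))
    have h2 : 0 < g1 (Iio (-1)) := by
      rw [pos_iff_ne_zero]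
      intro h0
      unfold c0 at hc
      rw [h0] at hc; simp at hc
    have h3 : 0 < volume (Ioc 0 (1/L)) := by
      rw [Real.volume_Ioc]; simp [hL]
    exact ENNReal.mul_pos h2.ne' h3.ne'
  rw [tendsto_order]
  constructor
  · -- lower
    intro b hb
    have hIfin : I ≠ ⊤ := by
      intro h; rw [h] at hb; simp at hb
    set I0 := I.toReal with hI0
    have hI0pos : 0 < I0 := ENNReal.toReal_pos hIpos.ne' hIfin
    have hIe : I = ENNReal.ofReal I0 := (ENNReal.ofReal_toReal hIfin).symm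
    -- ratio ≥ 2 ph(t/(ph0 I0)) /(ph0 I0)
    have hlim : Tendsto (fun t : ℝ => ENNReal.ofReal (2 * ph (t/(ph 0 * I0)) / (ph 0 * I0))) (𝓝[>] 0)
        (𝓝 (2/I)) := by
      have e : (2:ℝ≥0∞)/I = ENNReal.ofReal (2 * ph (0/(ph 0 * I0)) / (ph 0 * I0)) := by
        rw [hIe, zero_div]
        have : 2 * ph 0 / (ph 0 * I0) = 2/I0 := by field_simp
        rw [this, ENNReal.ofReal_div_of_pos hI0pos]; simp
      rw [e]
      apply ENNReal.tendsto_ofReal
      have hcont : Continuous (fun t : ℝ => 2 * ph (t/(ph 0 * I0)) / (ph 0 * I0)) := by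
        have := ph_cont
        fun_prop
      exact (hcont.tendsto 0).mono_left nhdsWithin_le_nhds
    filter_upwards [(tendsto_order.mp hlim).1 b hb, self_mem_nhdsWithin] with t ht1 ht
    have ht' : 0 < t := ht
    refine lt_of_lt_of_le ht1 ?_
    rw [ENNReal.le_div_iff_mul_le (Or.inl (by simpa using ht')) (Or.inl ENNReal.ofReal_ne_top),
      ← ENNReal.ofReal_mul (by have := ph_pos (t/(ph 0 * I0)); positivity)]
    have h1 : 2 * ph (t/(ph 0 * I0)) / (ph 0 * I0) * t = 2 * ph (t/(ph 0 * I0)) * (t/(ph 0 * I0)) := by ring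
    rw [h1]
    refine (g1_abs_ge (by positivity)).trans (measure_mono ?_)
    intro z hz
    have hz0 : z ≠ 0 := abs_pos.mp hz.1
    show DD H z ≤ ENNReal.ofReal t
    rw [DD_eq hH hz0]
    calc ENNReal.ofReal |z| * gg H |z| ≤ ENNReal.ofReal |z| * (ENNReal.ofReal (ph 0) * I) :=
          mul_le_mul_right (gg_le hH _) _
      _ = ENNReal.ofReal (|z| * (ph 0 * I0)) := by
          rw [hIe, ← ENNReal.ofReal_mul hp0.le, ← ENNReal.ofReal_mul (abs_nonneg _)]
      _ ≤ ENNReal.ofReal t := by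
          apply ENNReal.ofReal_le_ofReal
          have := hz.2
          rw [le_div_iff₀ (by positivity)] at this
          exact this
  · -- upper
    intro b hb
    -- choose I' < I with 2/I' < b
    obtain ⟨I', hI'0, hI'I, hI'b⟩ : ∃ I' : ℝ, 0 < I' ∧ ENNReal.ofReal I' < I ∧ ENNReal.ofReal (2/I') < b := by
      by_cases hbt : b = ⊤
      · obtain ⟨q, hq1, hq2⟩ := ENNReal.lt_iff_exists_nnreal_btwn.mp hIpos
        have hq0 : (0:ℝ) < q := by
          have : (0:ℝ≥0∞) < q := hq1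
          exact_mod_cast this
        refine ⟨q, hq0, by rw [ENNReal.ofReal_coe_nnreal]; exact hq2, by rw [hbt]; exact ENNReal.ofReal_lt_top⟩
      · have hb0 : b ≠ 0 := fun h => by rw [h] at hb; simp at hb
        set b0 := b.toReal with hb0d
        have hb0pos : 0 < b0 := ENNReal.toReal_pos hb0 hbt
        have hbe : b = ENNReal.ofReal b0 := (ENNReal.ofReal_toReal hbt).symm
        have h2b : ENNReal.ofReal (2/b0) < I := by
          by_cases hIt : I = ⊤
          · rw [hIt]; exact ENNReal.ofReal_lt_top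
          · set I0 := I.toReal with hI0
            have hI0pos : 0 < I0 := ENNReal.toReal_pos hIpos.ne' hIt
            have hIe : I = ENNReal.ofReal I0 := (ENNReal.ofReal_toReal hIt).symm
            rw [hIe, ENNReal.ofReal_lt_ofReal_iff hI0pos]
            have h3 : (2:ℝ≥0∞)/I = ENNReal.ofReal (2/I0) := by
              rw [hIe, ENNReal.ofReal_div_of_pos hI0pos]; simp
            have hb' : ENNReal.ofReal (2/I0) < ENNReal.ofReal b0 := by rw [← h3, ← hbe]; exact hb
            rw [ENNReal.ofReal_lt_ofReal_iff hb0pos, div_lt_iff₀ hI0pos] at hb'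
            rw [div_lt_iff₀ hb0pos]; linarith
        obtain ⟨q, hq1, hq2⟩ := ENNReal.lt_iff_exists_nnreal_btwn.mp h2b
        have hq0 : 2/b0 < (q:ℝ) := by
          rw [← ENNReal.ofReal_coe_nnreal] at hq1
          exact ENNReal.ofReal_lt_ofReal_iff' |>.mp hq1 |>.1
        have hq00 : (0:ℝ) < q := lt_trans (by positivity) hq0
        refine ⟨q, hq00, by rw [ENNReal.ofReal_coe_nnreal]; exact hq2, ?_⟩
        rw [hbe, ENNReal.ofReal_lt_ofReal_iff hb0pos, div_lt_iff₀ hq00]
        rw [div_lt_iff₀ hb0pos] at hq0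
        linarith
    -- r0
    have hgt : ENNReal.ofReal (ph 0) * ENNReal.ofReal I' < ENNReal.ofReal (ph 0) * I := by
      apply ENNReal.mul_lt_mul_right _ ENNReal.ofReal_ne_top hI'I
      simpa using hp0
    obtain ⟨n, hn⟩ := ((tendsto_order.mp (gg_tendsto hH)).1 _ hgt).exists
    set r0 : ℝ := 1/((n:ℝ)+1) with hr0
    have hr0pos : 0 < r0 := by positivity
    have htsmall : ∀ᶠ t : ℝ in 𝓝[>] 0, t < c0 * min (r0/L) 1 := by
      have : (0:ℝ) < c0 * min (r0/L) 1 := mul_pos hc (lt_min (by positivity) one_pos)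
      exact nhdsWithin_le_nhds (eventually_lt_nhds this)
    filter_upwards [htsmall, self_mem_nhdsWithin] with t ht1 ht
    have ht' : 0 < t := ht
    refine lt_of_le_of_lt ?_ hI'b
    rw [ENNReal.div_le_iff (by simpa using ht') ENNReal.ofReal_ne_top, ← ENNReal.ofReal_mul (by positivity)]
    have hsub : {z | DD H z ≤ ENNReal.ofReal t} ⊆ {z : ℝ | |z| ≤ t/(ph 0 * I')} := by
      intro z hz
      have hz' : DD H z ≤ ENNReal.ofReal t := hz
      show |z| ≤ t/(ph 0 * I')
      by_cases hz0 : z = 0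
      · rw [hz0]; simp; positivity
      · have h1 := (DD_lower hL hlow hz0).trans hz'
        rw [ENNReal.ofReal_le_ofReal_iff ht'.le] at h1
        have h2 : min (|z|/L) 1 < min (r0/L) 1 := by
          by_contra hcon
          push Not at hcon
          have := mul_le_mul_of_nonneg_left hcon hc.le
          linarith
        have h3 : |z| ≤ r0 := by
          by_contra hcon
          push Not at hcon
          have : r0/L ≤ |z|/L := div_le_div_of_nonneg_right hcon.le hL.le
          have := min_le_min_right 1 this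
          linarith
        have h4 : ENNReal.ofReal (ph 0 * I') ≤ gg H |z| := by
          rw [ENNReal.ofReal_mul hp0.le]
          exact hn.le.trans (gg_anti (abs_nonneg _) h3)
        rw [DD_eq hH hz0] at hz'
        have h5 : ENNReal.ofReal (|z| * (ph 0 * I')) ≤ ENNReal.ofReal t := by
          rw [ENNReal.ofReal_mul (abs_nonneg _)]
          exact (mul_le_mul_right h4 _).trans hz'
        rw [ENNReal.ofReal_le_ofReal_iff ht'.le] at h5
        rw [le_div_iff₀ (by positivity)]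
        exact h5
    refine (measure_mono hsub).trans ((g1_Icc_le (by positivity)).trans ?_)
    apply ENNReal.ofReal_le_ofReal
    apply le_of_eq
    field_simp

end Pool.Agent.R974.SA
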