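import Mathlib
import Pool.Agent.R974.SA.L
import Pool.Agent.R974.SA.R1

/-! Analysis for fixed `A`. -/

namespace Pool.Agent.R974.SA

open MeasureTheory ProbabilityTheory Filter Topology Set
open scoped ENNReal

variable {n K : ℕ}

instance : NullSingletonClass g1 := nullSingletonClass_gaussianReal (μ := 0) (v := 1) one_ne_zero

/-- the profile -/
noncomputable def HH (u : Fin K → Fin n → ℝ) (w : Fin n → ℝ) (s : ℝ) : ℝ≥0∞ :=
  gam n {v | ∃ j, dp (u j) v < s * dp (u j) w}

theorem HH_meas (u : Fin K → Fin n → ℝ) : Measurable (fun p : (Fin n → ℝ) × ℝ => HH u p.1 p.2) := by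
  have h : MeasurableSet {q : ((Fin n → ℝ) × ℝ) × (Fin n → ℝ) |
      ∃ j, dp (u j) q.2 < q.1.2 * dp (u j) q.1.1} := by
    have h1 : {q : ((Fin n → ℝ) × ℝ) × (Fin n → ℝ) | ∃ j, dp (u j) q.2 < q.1.2 * dp (u j) q.1.1} =
      ⋃ j, {q | dp (u j) q.2 < q.1.2 * dp (u j) q.1.1} := by
      ext q; simp only [Set.mem_iUnion]; rfl
    rw [h1]
    apply MeasurableSet.iUnion
    intro j
    exact measurableSet_lt ((dp_meas (u j)).comp measurable_snd)
      ((measurable_snd.comp measurable_fst).mul ((dp_meas (u j)).comp (measurable_fst.comp measurable_fst)))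
  exact measurable_measure_prodMk_left h

theorem HH_meas' (u : Fin K → Fin n → ℝ) (w : Fin n → ℝ) : Measurable (HH u w) :=
  (HH_meas u).comp (measurable_const.prodMk measurable_id)

theorem DD_HH_meas (u : Fin K → Fin n → ℝ) :
    Measurable (fun p : (Fin n → ℝ) × ℝ => DD (HH u p.1) p.2) := by
  unfold DD
  have h1 : Measurable (fun q : ((Fin n → ℝ) × ℝ) × ℝ => HH u q.1.1 (q.2/|q.1.2|)) :=
    (HH_meas u).comp ((measurable_fst.comp measurable_fst).prodMk
      (measurable_snd.div (measurable_abs.comp (measurable_snd.comp measurable_fst))))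
  exact h1.lintegral_prod_right'

theorem HH_proj (u : Fin K → Fin n → ℝ) (N : Fin n → ℝ) (hN : ∀ j, dp (u j) N = 0) (x : Fin n → ℝ) (c : ℝ) :
    HH u (x - c • N) = HH u x := by
  funext s
  unfold HH
  have h1 : ∀ j, dp (u j) (x - c•N) = dp (u j) x := fun j => by
    rw [dp_sub, dp_smul, hN, mul_zero, sub_zero]
  simp_rw [h1]

theorem HH_low (u : Fin K → Fin n → ℝ) (hu : ∀ j, dp (u j) (u j) = 1) (j : Fin K) (w : Fin n → ℝ)
    (s : ℝ) (hs : 0 < s) : g1 (Iio (-(s*(|dp (u j) w| + 1)))) ≤ HH u w s := by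
  have h1 : g1 (Iio (-(s*(|dp (u j) w| + 1)))) = gam n {v | dp (u j) v < -(s*(|dp (u j) w| + 1))} := by
    unfold g1
    rw [← gam_map_dp (u j) (hu j), Measure.map_apply (dp_meas _) measurableSet_Iio]; rfl
  rw [h1]
  unfold HH
  apply measure_mono
  intro v hv
  have hv' : dp (u j) v < -(s*(|dp (u j) w| + 1)) := hv
  refine ⟨j, ?_⟩
  have := neg_abs_le (dp (u j) w)
  nlinarith

/-- constant of domination -/
noncomputable def C1 : ℝ≥0∞ := ∫⁻ y, ENNReal.ofReal ((|y|+2)/c0) ∂g1

theorem int_abs : Integrable (fun y : ℝ => |y|) g1 := by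
  have h1 : Integrable (id : ℝ → ℝ) (gaussianReal 0 1) := by
    have := memLp_id_gaussianReal (μ := 0) (v := 1) 1
    exact memLp_one_iff_integrable.mp (by simpa using this)
  exact h1.abs

theorem lint_ind {α β : Type*} [MeasurableSpace α] [MeasurableSpace β] (μ : Measure α) {S : Set β}
    (hS : MeasurableSet S) {f : α → β} (hf : Measurable f) :
    ∫⁻ a, S.indicator (1 : β → ℝ≥0∞) (f a) ∂μ = μ (f ⁻¹' S) := by
  rw [← lintegral_indicator_one (hf hS)]
  apply lintegral_congr
  intro a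
  by_cases h : f a ∈ S
  · rw [indicator_of_mem h, indicator_of_mem (show a ∈ f ⁻¹' S from h)]; rfl
  · rw [indicator_of_notMem h, indicator_of_notMem (show a ∉ f ⁻¹' S from h)]

theorem C1_ne : C1 ≠ ⊤ := by
  unfold C1
  have h1 : Integrable (fun y : ℝ => (|y|+2)/c0) g1 :=
    (int_abs.add (integrable_const 2)).div_const c0
  exact h1.lintegral_lt_top.ne

theorem T_eq (N : Fin n → ℝ) (hN : dp N N = 1) (u : Fin K → Fin n → ℝ) (huN : ∀ j, dp (u j) N = 0) (t : ℝ) :
    gam n {x | DD (HH u x) (dp N x) ≤ ENNReal.ofReal t} =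
      ∫⁻ x, g1 {z | DD (HH u x) z ≤ ENNReal.ofReal t} ∂(gam n) := by
  set S : Set ((Fin n → ℝ) × ℝ) := {p | DD (HH u p.1) p.2 ≤ ENNReal.ofReal t} with hS
  have hSm : MeasurableSet S := measurableSet_le (DD_HH_meas u) measurable_const
  have h1 := lint_split N hN (fun w z => S.indicator 1 (w, z)) (by
    exact (measurable_const.indicator hSm : Measurable (S.indicator (1 : (Fin n → ℝ) × ℝ → ℝ≥0∞))))
  have h2 : ∀ x : Fin n → ℝ, ∀ z, S.indicator (1 : (Fin n → ℝ) × ℝ → ℝ≥0∞) (x - dp N x • N, z) =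
      S.indicator 1 (x, z) := by
    intro x z
    have : (x - dp N x • N, z) ∈ S ↔ (x, z) ∈ S := by
      show DD (HH u (x - dp N x • N)) z ≤ ENNReal.ofReal t ↔ DD (HH u x) z ≤ ENNReal.ofReal t
      rw [HH_proj u N huN]
    by_cases h : (x, z) ∈ S
    · rw [indicator_of_mem h, indicator_of_mem (this.mpr h)]; rfl
    · rw [indicator_of_notMem h, indicator_of_notMem (fun h' => h (this.mp h'))]
  simp_rw [h2] at h1
  have h3 : ∫⁻ x, S.indicator (1 : (Fin n → ℝ) × ℝ → ℝ≥0∞) (x, dp N x) ∂(gam n) =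
      gam n {x | DD (HH u x) (dp N x) ≤ ENNReal.ofReal t} :=
    lint_ind (gam n) hSm (measurable_id.prodMk (dp_meas N))
  have h4 : ∀ x, ∫⁻ y, S.indicator (1 : (Fin n → ℝ) × ℝ → ℝ≥0∞) (x, y) ∂(gaussianReal 0 1) =
      g1 {z | DD (HH u x) z ≤ ENNReal.ofReal t} := by
    intro x
    exact lint_ind (gaussianReal 0 1) hSm (measurable_const.prodMk measurable_id)
  rw [← h3, h1]
  exact lintegral_congr h4

theorem T_dom (u : Fin K → Fin n → ℝ) (hu : ∀ j, dp (u j) (u j) = 1) (j : Fin K) (x : Fin n → ℝ)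
    {t : ℝ} (ht : 0 < t) :
    g1 {z | DD (HH u x) z ≤ ENNReal.ofReal t} / ENNReal.ofReal t ≤
      ENNReal.ofReal ((|dp (u j) x| + 2)/c0) := by
  have hc := c0_pos
  have h1 := dom (H := HH u x) (L := |dp (u j) x| + 1) (by positivity) (HH_low u hu j x) ht
  rw [ENNReal.div_le_iff (by simpa using ht) ENNReal.ofReal_ne_top,
    ← ENNReal.ofReal_mul (by positivity)]
  refine h1.trans (le_of_eq ?_)
  congr 2; ring

theorem C1_eq (u : Fin n → ℝ) (hu : dp u u = 1) :
    ∫⁻ x, ENNReal.ofReal ((|dp u x| + 2)/c0) ∂(gam n) = C1 := by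
  unfold C1 g1
  rw [← gam_map_dp u hu, lintegral_map (by fun_prop) (dp_meas u)]

theorem HHm (u : Fin K → Fin n → ℝ) : Measurable (fun x => ∫⁻ s in Ioi (0:ℝ), HH u x s) :=
  (HH_meas u).lintegral_prod_right'

/-- the limit for fixed directions -/
noncomputable def ll (u : Fin K → Fin n → ℝ) : ℝ≥0∞ := ∫⁻ x, (2 / ∫⁻ s in Ioi (0:ℝ), HH u x s) ∂(gam n)

theorem T_lim (N : Fin n → ℝ) (hN : dp N N = 1) (u : Fin K → Fin n → ℝ) (hu : ∀ j, dp (u j) (u j) = 1)
    (huN : ∀ j, dp (u j) N = 0) (hK : 0 < K) :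
    Tendsto (fun t : ℝ => gam n {x | DD (HH u x) (dp N x) ≤ ENNReal.ofReal t} / ENNReal.ofReal t)
      (𝓝[>] 0) (𝓝 (ll u)) := by
  have hm : ∀ t : ℝ, Measurable (fun x => g1 {z | DD (HH u x) z ≤ ENNReal.ofReal t}) := by
    intro t
    exact measurable_measure_prodMk_left (measurableSet_le (DD_HH_meas u) measurable_const)
  have h1 : ∀ t : ℝ, gam n {x | DD (HH u x) (dp N x) ≤ ENNReal.ofReal t} / ENNReal.ofReal t =
      ∫⁻ x, g1 {z | DD (HH u x) z ≤ ENNReal.ofReal t} / ENNReal.ofReal t ∂(gam n) := by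
    intro t
    rw [T_eq N hN u huN]
    simp_rw [div_eq_mul_inv]
    rw [lintegral_mul_const _ (hm t)]
  simp_rw [h1]
  unfold ll
  refine tendsto_lintegral_filter_of_dominated_convergence
    (fun x => ENNReal.ofReal ((|dp (u ⟨0, hK⟩) x| + 2)/c0)) ?_ ?_ ?_ ?_
  · refine Eventually.of_forall (fun t => ?_)
    simp_rw [div_eq_mul_inv]
    exact (hm t).mul_const _
  · filter_upwards [self_mem_nhdsWithin] with t ht
    exact Eventually.of_forall (fun x => T_dom u hu ⟨0, hK⟩ x ht)
  · rw [C1_eq _ (hu _)]; exact C1_ne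
  · refine Eventually.of_forall (fun x => ?_)
    exact limit (HH_meas' u x) (L := |dp (u ⟨0, hK⟩) x| + 1) (by positivity) (HH_low u hu ⟨0, hK⟩ x)

theorem T_dom2 (N : Fin n → ℝ) (hN : dp N N = 1) (u : Fin K → Fin n → ℝ) (hu : ∀ j, dp (u j) (u j) = 1)
    (huN : ∀ j, dp (u j) N = 0) (hK : 0 < K) {t : ℝ} (ht : 0 < t) :
    gam n {x | DD (HH u x) (dp N x) ≤ ENNReal.ofReal t} / ENNReal.ofReal t ≤ C1 := by
  have hm : ∀ t : ℝ, Measurable (fun x => g1 {z | DD (HH u x) z ≤ ENNReal.ofReal t}) := by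
    intro t
    exact measurable_measure_prodMk_left (measurableSet_le (DD_HH_meas u) measurable_const)
  rw [T_eq N hN u huN, div_eq_mul_inv, ← lintegral_mul_const _ (hm t), ← C1_eq _ (hu ⟨0, hK⟩)]
  apply lintegral_mono
  intro x
  have := T_dom u hu ⟨0, hK⟩ x ht
  rw [div_eq_mul_inv] at this
  exact this

instance : (gam n).IsOpenPosMeasure := by
  have h1 : (gaussianReal 0 1).IsOpenPosMeasure := by
    have h2 : (volume : Measure ℝ) ≪ gaussianReal 0 1 := gaussianReal_absolutelyContinuous' 0 one_ne_zero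
    exact h2.isOpenPosMeasure
  unfold gam; infer_instance

theorem HH_int_fin (u : Fin K → Fin n → ℝ) (hu : ∀ j, dp (u j) (u j) = 1) (x : Fin n → ℝ)
    (hx : ∀ j, dp (u j) x < 0) : ∫⁻ s in Ioi (0:ℝ), HH u x s < ⊤ := by
  have hm : ∀ j, Measurable (fun s : ℝ => gam n {v | s < |dp (u j) v| / |dp (u j) x|}) := by
    intro j
    have h1 : MeasurableSet {q : ℝ × (Fin n → ℝ) | q.1 < |dp (u j) q.2| / |dp (u j) x|} := by
      apply measurableSet_lt measurable_fst
      exact (measurable_abs.comp ((dp_meas (u j)).comp measurable_snd)).div_const _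
    exact measurable_measure_prodMk_left h1
  calc ∫⁻ s in Ioi (0:ℝ), HH u x s ≤ ∫⁻ s in Ioi (0:ℝ), ∑ j, gam n {v | s < |dp (u j) v| / |dp (u j) x|} := by
        apply setLIntegral_mono' measurableSet_Ioi
        intro s hs
        have hs' : 0 < s := hs
        unfold HH
        have h2 : {v | ∃ j, dp (u j) v < s * dp (u j) x} ⊆ ⋃ j, {v | s < |dp (u j) v| / |dp (u j) x|} := by
          rintro v ⟨j, hj⟩
          rw [Set.mem_iUnion]
          refine ⟨j, ?_⟩
          show s < |dp (u j) v| / |dp (u j) x|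
          have h3 := hx j
          rw [abs_of_neg h3, lt_div_iff₀ (by linarith)]
          have h4 : dp (u j) v < 0 := by
            have : s * dp (u j) x < 0 := mul_neg_of_pos_of_neg hs' h3
            linarith
          rw [abs_of_neg h4]
          linarith
        exact (measure_mono h2).trans (measure_iUnion_fintype_le _ _)
    _ = ∑ j, ∫⁻ s in Ioi (0:ℝ), gam n {v | s < |dp (u j) v| / |dp (u j) x|} :=
        lintegral_finsetSum _ (fun j _ => hm j)
    _ = ∑ j, ∫⁻ v, ENNReal.ofReal (|dp (u j) v| / |dp (u j) x|) ∂(gam n) := by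
        apply Finset.sum_congr rfl
        intro j _
        rw [lintegral_eq_lintegral_meas_lt]
        · exact Eventually.of_forall (fun v => by positivity)
        · exact ((measurable_abs.comp (dp_meas (u j))).div_const _).aemeasurable
    _ < ⊤ := by
        rw [ENNReal.sum_lt_top]
        intro j _
        have h5 : ∫⁻ v, ENNReal.ofReal (|dp (u j) v| / |dp (u j) x|) ∂(gam n) =
            ∫⁻ y, ENNReal.ofReal (|y| / |dp (u j) x|) ∂g1 := by
          unfold g1
          rw [← gam_map_dp (u j) (hu j), lintegral_map (by fun_prop) (dp_meas (u j))]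
        rw [h5]
        exact (int_abs.div_const _).lintegral_lt_top

theorem ll_pos (u : Fin K → Fin n → ℝ) (hu : ∀ j, dp (u j) (u j) = 1) (w : Fin n → ℝ)
    (hw : ∀ j, dp (u j) w < 0) : 0 < ll u := by
  unfold ll
  have hm : Measurable (fun x => 2 / ∫⁻ s in Ioi (0:ℝ), HH u x s) := by
    simp_rw [div_eq_mul_inv]
    exact (HHm u).inv.const_mul _
  rw [lintegral_pos_iff_support hm]
  have hO : IsOpen {x : Fin n → ℝ | ∀ j, dp (u j) x < 0} := by
    have : {x : Fin n → ℝ | ∀ j, dp (u j) x < 0} = ⋂ j, {x | dp (u j) x < 0} := by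
      ext x; simp only [Set.mem_iInter]; rfl
    rw [this]
    apply isOpen_iInter_of_finite
    intro j
    exact isOpen_lt (dp_cont (u j)) continuous_const
  have hne : {x : Fin n → ℝ | ∀ j, dp (u j) x < 0}.Nonempty := ⟨w, hw⟩
  refine lt_of_lt_of_le (hO.measure_pos (gam n) hne) (measure_mono ?_)
  intro x hx
  have h1 := HH_int_fin u hu x hx
  rw [Function.mem_support]
  exact (ENNReal.div_pos (by norm_num) h1.ne).ne'

theorem g1_neg : g1.map (fun x => -x) = g1 := by
  unfold g1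
  rw [gaussianReal_map_neg, neg_zero]

theorem g1_Ioi : g1 (Ioi 0) = 1/2 := by
  have h1 : g1 (Iio 0) = g1 (Ioi 0) := by
    conv_rhs => rw [← g1_neg]
    rw [Measure.map_apply measurable_neg measurableSet_Ioi]
    congr 1
    ext y
    simp
  have h2 : g1 (Iio 0) + g1 (Ioi 0) = 1 := by
    have h3 : g1 (Iio 0) + g1 (Ici 0) = 1 := by
      rw [← measure_union (by
        rw [Set.disjoint_left]; intro y hy hy'
        have a1 : y < 0 := hy
        have a2 : 0 ≤ y := hy'
        linarith) measurableSet_Ici, Iio_union_Ici]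
      exact measure_univ
    rw [← h3]
    congr 1
    exact measure_congr Ioi_ae_eq_Ici
  rw [h1, ← two_mul] at h2
  rw [ENNReal.eq_div_iff (by norm_num) (by norm_num)]
  exact h2

theorem al_add_DD (A : Fin K → Fin (K+1) → ℝ) (N : Fin (K+1) → ℝ) (u : Fin K → Fin (K+1) → ℝ)
    (hN : dp N N = 1) (huN : ∀ j, dp (u j) N = 0)
    (h : ∀ x v, dp N x ≠ 0 → (InPos (Fin.cons x A : Fin (K+1) → Fin (K+1) → ℝ) v ↔
        0 ≤ dp N v / dp N x ∧ ∀ j, dp N v / dp N x * dp (u j) x ≤ dp (u j) v))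
    (x : Fin (K+1) → ℝ) (hx : dp N x ≠ 0) :
    al (Fin.cons x A : Fin (K+1) → Fin (K+1) → ℝ) + DD (HH u x) (dp N x) = 1/2 := by
  set z := dp N x with hz
  set GG : ℝ → ℝ≥0∞ := fun s => gam (K+1) {v | ∀ j, s * dp (u j) x ≤ dp (u j) v} with hGG
  have hset : ∀ s : ℝ, MeasurableSet {v : Fin (K+1) → ℝ | ∀ j, s * dp (u j) x ≤ dp (u j) v} := by
    intro s
    have : {v : Fin (K+1) → ℝ | ∀ j, s * dp (u j) x ≤ dp (u j) v} =
        ⋂ j, {v | s * dp (u j) x ≤ dp (u j) v} := by
      ext v; simp only [Set.mem_iInter]; rfl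
    rw [this]
    apply MeasurableSet.iInter
    intro j
    exact measurableSet_le measurable_const (dp_meas (u j))
  have hGH : ∀ s, GG s + HH u x s = 1 := by
    intro s
    have h1 := measure_add_measure_compl (μ := gam (K+1)) (hset s)
    rw [measure_univ] at h1
    rw [← h1]
    congr 1
    unfold HH
    congr 1
    ext v
    constructor
    · rintro ⟨j, hj⟩ hcon
      have := hcon j
      linarith
    · intro hcon
      by_contra hne
      apply hcon
      intro j
      by_contra hlt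
      push Not at hlt
      exact hne ⟨j, hlt⟩
  set S : Set ((Fin (K+1) → ℝ) × ℝ) := {p | 0 ≤ p.2/z ∧ ∀ j, p.2/z * dp (u j) x ≤ dp (u j) p.1} with hS
  have hSm : MeasurableSet S := by
    have : S = {p | 0 ≤ p.2/z} ∩ ⋂ j, {p | p.2/z * dp (u j) x ≤ dp (u j) p.1} := by
      ext p; simp only [Set.mem_inter_iff, Set.mem_iInter]; rfl
    rw [this]
    apply MeasurableSet.inter
    · exact measurableSet_le measurable_const (measurable_snd.div_const _)
    · apply MeasurableSet.iInter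
      intro j
      exact measurableSet_le ((measurable_snd.div_const _).mul_const _) ((dp_meas (u j)).comp measurable_fst)
  have hSind : Measurable (S.indicator (1 : (Fin (K+1) → ℝ) × ℝ → ℝ≥0∞)) := measurable_const.indicator hSm
  have h1 := lint_split N hN (fun w y => S.indicator 1 (w, y)) hSind
  have h2 : ∀ v : Fin (K+1) → ℝ, ∀ y, S.indicator (1 : (Fin (K+1) → ℝ) × ℝ → ℝ≥0∞) (v - dp N v • N, y) =
      S.indicator 1 (v, y) := by
    intro v y
    have h0 : (v - dp N v • N, y) ∈ S ↔ (v, y) ∈ S := by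
      show (0 ≤ y/z ∧ ∀ j, y/z * dp (u j) x ≤ dp (u j) (v - dp N v • N)) ↔
        (0 ≤ y/z ∧ ∀ j, y/z * dp (u j) x ≤ dp (u j) v)
      have h3 : ∀ j, dp (u j) (v - dp N v•N) = dp (u j) v := fun j => by
        rw [dp_sub, dp_smul, huN, mul_zero, sub_zero]
      simp_rw [h3]
    by_cases hh : (v, y) ∈ S
    · rw [indicator_of_mem hh, indicator_of_mem (h0.mpr hh)]; rfl
    · rw [indicator_of_notMem hh, indicator_of_notMem (fun h' => hh (h0.mp h'))]
  simp_rw [h2] at h1
  have h3 : ∫⁻ v, S.indicator (1 : (Fin (K+1) → ℝ) × ℝ → ℝ≥0∞) (v, dp N v) ∂(gam (K+1)) =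
      al (Fin.cons x A : Fin (K+1) → Fin (K+1) → ℝ) := by
    unfold al
    have h4 : {v | InPos (Fin.cons x A : Fin (K+1) → Fin (K+1) → ℝ) v} = {v | (v, dp N v) ∈ S} := by
      ext v
      exact h x v hx
    rw [h4]
    exact lint_ind (gam (K+1)) hSm (measurable_id.prodMk (dp_meas N))
  rw [h3, lintegral_lintegral_swap (f := fun v y => S.indicator (1 : (Fin (K+1) → ℝ) × ℝ → ℝ≥0∞) (v, y))
    hSind.aemeasurable] at h1
  -- inner integral
  have h5 : ∀ y, ∫⁻ v, S.indicator (1 : (Fin (K+1) → ℝ) × ℝ → ℝ≥0∞) (v, y) ∂(gam (K+1)) =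
      (Ici (0:ℝ)).indicator GG (y/z) := by
    intro y
    by_cases hy : 0 ≤ y/z
    · rw [indicator_of_mem (show y/z ∈ Ici (0:ℝ) from hy), hGG]
      simp only
      rw [← lintegral_indicator_one (hset (y/z))]
      apply lintegral_congr
      intro v
      by_cases hv : (v, y) ∈ S
      · rw [indicator_of_mem hv, indicator_of_mem (show v ∈ {v | ∀ j, y/z * dp (u j) x ≤ dp (u j) v} from hv.2)]
        rfl
      · rw [indicator_of_notMem hv, indicator_of_notMem]
        intro hv'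
        exact hv ⟨hy, hv'⟩
    · rw [indicator_of_notMem (show y/z ∉ Ici (0:ℝ) from hy)]
      have h6 : ∀ v, S.indicator (1 : (Fin (K+1) → ℝ) × ℝ → ℝ≥0∞) (v, y) = 0 := by
        intro v
        rw [indicator_of_notMem]
        intro hv; exact hy hv.1
      simp_rw [h6]
      simp
  simp_rw [h5] at h1
  have hGm : Measurable GG := by
    have h7 : GG = fun s => 1 - HH u x s := by
      funext s
      refine ENNReal.eq_sub_of_add_eq ?_ (hGH s)
      unfold HH; exact measure_ne_top _ _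
    rw [h7]
    exact measurable_const.sub (HH_meas' u x)
  have hIm : Measurable (fun y : ℝ => (Ici (0:ℝ)).indicator GG (y/z)) :=
    (hGm.indicator measurableSet_Ici).comp (measurable_id.div_const _)
  have h8 : ∫⁻ y, (Ici (0:ℝ)).indicator GG (y/z) ∂g1 = ∫⁻ y, (Ici (0:ℝ)).indicator GG (y/|z|) ∂g1 := by
    rcases lt_or_gt_of_ne hx with hneg | hpos
    · conv_lhs => rw [← g1_neg]
      rw [lintegral_map hIm measurable_neg, abs_of_neg hneg]
      apply lintegral_congr
      intro y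
      rw [neg_div, div_neg]
    · rw [abs_of_pos hpos]
  have hza : 0 < |z| := abs_pos.mpr hx
  have h9 : ∫⁻ y, (Ici (0:ℝ)).indicator GG (y/|z|) ∂g1 = ∫⁻ y in Ioi (0:ℝ), GG (y/|z|) ∂g1 := by
    have h10 : ∀ y : ℝ, (Ici (0:ℝ)).indicator GG (y/|z|) = (Ici (0:ℝ)).indicator (fun y => GG (y/|z|)) y := by
      intro y
      by_cases hy : 0 ≤ y
      · rw [indicator_of_mem (show y ∈ Ici (0:ℝ) from hy),
          indicator_of_mem (show y/|z| ∈ Ici (0:ℝ) from div_nonneg hy hza.le)]
      · rw [indicator_of_notMem (show y ∉ Ici (0:ℝ) from hy), indicator_of_notMem]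
        intro hcon
        have : 0 ≤ y/|z| := hcon
        apply hy
        have h11 : y = y/|z| * |z| := by field_simp
        rw [h11]; positivity
    simp_rw [h10]
    rw [lintegral_indicator measurableSet_Ici]
    exact (setLIntegral_congr Ioi_ae_eq_Ici).symm
  have h12 : al (Fin.cons x A : Fin (K+1) → Fin (K+1) → ℝ) = ∫⁻ y in Ioi (0:ℝ), GG (y/|z|) ∂g1 := by
    rw [h1, ← h9, ← h8]
  rw [h12]
  unfold DD
  have hgm : Measurable (fun y : ℝ => GG (y/|z|)) := hGm.comp (measurable_id.div_const _)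
  rw [← lintegral_add_left hgm]
  simp_rw [hGH]
  rw [setLIntegral_one, g1_Ioi]

end Pool.Agent.R974.SA
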