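import Mathlib

/-! Tauberian lemma. -/

namespace Pool.Agent.R974.SA

open MeasureTheory ProbabilityTheory Filter Topology Set
open scoped ENNReal

/-- `z = ∫_0^∞ e^{-s} 1{e^{-s} ≤ z} ds` -/
theorem exp_rep {z : ℝ} (h0 : 0 ≤ z) (h1 : z ≤ 1) :
    ENNReal.ofReal z = ∫⁻ s in Ioi (0:ℝ), ENNReal.ofReal (Real.exp (-s)) *
      (if Real.exp (-s) ≤ z then 1 else 0) := by
  rcases h0.eq_or_lt with h | h
  · rw [← h, ENNReal.ofReal_zero]
    symm
    rw [lintegral_eq_zero_iff' (by
      apply AEMeasurable.mul (by fun_prop)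
      apply Measurable.aemeasurable
      apply Measurable.ite _ measurable_const measurable_const
      exact measurableSet_le (by fun_prop) measurable_const)]
    refine Eventually.of_forall (fun s => ?_)
    have : ¬ Real.exp (-s) ≤ 0 := not_le.mpr (Real.exp_pos _)
    simp [this]
  · have e1 : ∫⁻ s in Ioi (-Real.log z), ENNReal.ofReal (Real.exp (-s)) = ENNReal.ofReal z := by
      rw [← ofReal_integral_eq_lintegral_ofReal (integrableOn_exp_neg_Ioi _)
        (Eventually.of_forall (fun s => (Real.exp_pos _).le)), integral_exp_neg_Ioi, neg_neg, Real.exp_log h]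
    rw [← e1, ← lintegral_indicator measurableSet_Ioi, ← lintegral_indicator measurableSet_Ioi]
    have hlog : 0 ≤ -Real.log z := by
      have := Real.log_nonpos h0 h1; linarith
    have hae : ∀ᵐ s : ℝ, s ≠ -Real.log z := by
      rw [ae_iff]; simp
    apply lintegral_congr_ae
    filter_upwards [hae] with s hs
    have hiff : Real.exp (-s) ≤ z ↔ -Real.log z ≤ s := by
      rw [← Real.le_log_iff_exp_le h]
      constructor <;> intro h <;> linarith
    by_cases hc : -Real.log z < s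
    · rw [indicator_of_mem (show s ∈ Ioi (-Real.log z) from hc),
        indicator_of_mem (show s ∈ Ioi (0:ℝ) from lt_of_le_of_lt hlog hc), if_pos (hiff.mpr hc.le), mul_one]
    · rw [indicator_of_notMem (show s ∉ Ioi (-Real.log z) from hc)]
      have h2 : ¬ Real.exp (-s) ≤ z := by
        rw [hiff]; intro h3
        exact hc (lt_of_le_of_ne h3 (Ne.symm hs))
      by_cases hs0 : s ∈ Ioi (0:ℝ)
      · rw [indicator_of_mem hs0, if_neg h2, mul_zero]
      · rw [indicator_of_notMem hs0]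

theorem gamma_two : ∫⁻ s in Ioi (0:ℝ), ENNReal.ofReal (Real.exp (-s)) * ENNReal.ofReal s = 1 := by
  have h1 : ∀ s : ℝ, ENNReal.ofReal (Real.exp (-s)) * ENNReal.ofReal s = ENNReal.ofReal (Real.exp (-s) * s) := by
    intro s; rw [ENNReal.ofReal_mul (Real.exp_pos _).le]
  simp_rw [h1]
  have h2 : ∫ s in Ioi (0:ℝ), Real.exp (-s) * s = 1 := by
    have h3 := Real.Gamma_eq_integral (s := 2) (by norm_num)
    have h4 : Real.Gamma 2 = 1 := Real.Gamma_two
    rw [h4] at h3
    rw [h3]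
    apply setIntegral_congr_fun measurableSet_Ioi
    intro s _
    simp only
    norm_num
  have h5 : IntegrableOn (fun s : ℝ => Real.exp (-s) * s) (Ioi 0) := by
    have h3 := Real.GammaIntegral_convergent (s := 2) (by norm_num)
    refine h3.congr_fun ?_ measurableSet_Ioi
    intro s _
    simp only
    norm_num
  rw [← ofReal_integral_eq_lintegral_ofReal h5, h2, ENNReal.ofReal_one]
  filter_upwards [ae_restrict_mem measurableSet_Ioi] with s hs
  have hs' : (0:ℝ) < s := hs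
  positivity

theorem lim_scale (s : ℝ) : Tendsto (fun n : ℕ => ((n:ℝ)+1) * ((1 - Real.exp (-(s/((n:ℝ)+1))))/2)) atTop (𝓝 (s/2)) := by
  by_cases hs : s = 0
  · rw [hs]; simp
  have h1 : HasDerivAt (fun x : ℝ => (1 - Real.exp (-x))/2) (1/2) 0 := by
    have h2 : HasDerivAt (fun x : ℝ => Real.exp (-x)) (Real.exp (-0) * (-1)) 0 :=
      (hasDerivAt_neg (0:ℝ)).exp
    have h3 := ((hasDerivAt_const (0:ℝ) (1:ℝ)).sub h2).div_const 2
    simpa using h3
  have h4 : Tendsto (fun n : ℕ => s/((n:ℝ)+1)) atTop (𝓝[≠] 0) := by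
    rw [tendsto_nhdsWithin_iff]
    constructor
    · have := (tendsto_one_div_add_atTop_nhds_zero_nat (𝕜 := ℝ)).const_mul s
      rw [mul_zero] at this
      refine this.congr (fun n => ?_)
      rw [mul_one_div]
    · refine Eventually.of_forall (fun n => ?_)
      have : (n:ℝ)+1 ≠ 0 := by positivity
      exact div_ne_zero hs this
  have h5 := (hasDerivAt_iff_tendsto_slope.mp h1).comp h4
  have h6 := h5.const_mul s
  have h7 : s * (1/2) = s/2 := by ring
  rw [h7] at h6
  refine h6.congr (fun n => ?_)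
  have hn : (n:ℝ)+1 ≠ 0 := by positivity
  simp only [Function.comp, slope_def_field]
  simp
  field_simp

/-- the scale -/
noncomputable def tau (n : ℕ) (s : ℝ) : ℝ := (1 - Real.exp (-(s/((n:ℝ)+1))))/2

theorem tau_pos (n : ℕ) {s : ℝ} (hs : 0 < s) : 0 < tau n s := by
  unfold tau
  have h1 : 0 < s/((n:ℝ)+1) := by positivity
  have h2 : Real.exp (-(s/((n:ℝ)+1))) < 1 := by
    rw [Real.exp_lt_one_iff]; linarith
  linarith

theorem tau_le (n : ℕ) (s : ℝ) : ((n:ℝ)+1) * tau n s ≤ s/2 := by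
  unfold tau
  have h1 := Real.add_one_le_exp (-(s/((n:ℝ)+1)))
  have hn : (0:ℝ) < (n:ℝ)+1 := by positivity
  have h2 : (1 - Real.exp (-(s/((n:ℝ)+1))))/2 ≤ (s/((n:ℝ)+1))/2 := by linarith
  calc ((n:ℝ)+1) * ((1 - Real.exp (-(s/((n:ℝ)+1))))/2) ≤ ((n:ℝ)+1) * ((s/((n:ℝ)+1))/2) :=
        mul_le_mul_of_nonneg_left h2 hn.le
    _ = s/2 := by field_simp

theorem tau_tendsto {s : ℝ} (hs : 0 < s) : Tendsto (fun n : ℕ => tau n s) atTop (𝓝[>] 0) := by
  rw [tendsto_nhdsWithin_iff]
  refine ⟨?_, Eventually.of_forall (fun n => tau_pos n hs)⟩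
  have h1 : Tendsto (fun n : ℕ => s/((n:ℝ)+1)) atTop (𝓝 0) := by
    have := (tendsto_one_div_add_atTop_nhds_zero_nat (𝕜 := ℝ)).const_mul s
    rw [mul_zero] at this
    refine this.congr (fun n => ?_)
    rw [mul_one_div]
  have h2 : Continuous (fun x : ℝ => (1 - Real.exp (-x))/2) := by fun_prop
  have h3 := (h2.tendsto 0).comp h1
  have e : (1 - Real.exp (-(0:ℝ)))/2 = 0 := by simp
  rw [e] at h3
  exact h3

theorem pow_rep (y : ℝ≥0∞) (hy : y ≤ 1/2) (n : ℕ) :
    (2 * y)^(n+1) = ∫⁻ s in Ioi (0:ℝ), ENNReal.ofReal (Real.exp (-s)) *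
      (if 1/2 - y ≤ ENNReal.ofReal (tau n s) then 1 else 0) := by
  have hyt : y ≠ ⊤ := ne_top_of_le_ne_top (by norm_num) hy
  obtain ⟨r, hr⟩ : ∃ r : ℝ, r = y.toReal := ⟨_, rfl⟩
  have hr0 : 0 ≤ r := by rw [hr]; exact ENNReal.toReal_nonneg
  have hyr : y = ENNReal.ofReal r := by rw [hr, ENNReal.ofReal_toReal hyt]
  have hhalf : (1:ℝ≥0∞)/2 = ENNReal.ofReal (1/2) := by
    rw [ENNReal.ofReal_div_of_pos (by norm_num)]; simp
  have hr1 : r ≤ 1/2 := by
    rw [hyr, hhalf, ENNReal.ofReal_le_ofReal_iff (by norm_num)] at hy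
    exact hy
  have h1 : (2 * y)^(n+1) = ENNReal.ofReal ((2*r)^(n+1)) := by
    rw [hyr, ENNReal.ofReal_pow (by positivity), ENNReal.ofReal_mul (by norm_num)]; simp
  rw [h1, exp_rep (by positivity) (pow_le_one₀ (by positivity) (by linarith))]
  apply setLIntegral_congr_fun measurableSet_Ioi
  intro s hs
  have hs' : 0 < s := hs
  simp only
  congr 1
  have hiff : Real.exp (-s) ≤ (2*r)^(n+1) ↔ 1/2 - y ≤ ENNReal.ofReal (tau n s) := by
    have hn : (n:ℝ)+1 ≠ 0 := by positivity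
    have h2 : Real.exp (-s) = (Real.exp (-(s/((n:ℝ)+1))))^(n+1) := by
      rw [← Real.exp_nat_mul]
      congr 1
      push_cast
      field_simp
    rw [h2, pow_le_pow_iff_left₀ (Real.exp_pos _).le (by positivity) (by omega), hyr, hhalf,
      ← ENNReal.ofReal_sub _ hr0, ENNReal.ofReal_le_ofReal_iff (tau_pos n hs').le]
    unfold tau
    constructor <;> intro h <;> linarith
  by_cases hc : Real.exp (-s) ≤ (2*r)^(n+1)
  · rw [if_pos hc, if_pos (hiff.mp hc)]
  · rw [if_neg hc, if_neg (fun h => hc (hiff.mpr h))]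

theorem tau_meas (n : ℕ) : Measurable (tau n) := by unfold tau; fun_prop

theorem tauber {Ω : Type*} [MeasurableSpace Ω] (μ : Measure Ω) [IsProbabilityMeasure μ] (Y : Ω → ℝ≥0∞)
    (hY : Measurable Y) (hY1 : ∀ᵐ ω ∂μ, Y ω ≤ 1/2) (c : ℝ≥0∞) (hc : c ≠ ⊤)
    (hlim : Tendsto (fun t : ℝ => μ {ω | 1/2 - Y ω ≤ ENNReal.ofReal t} / ENNReal.ofReal t) (𝓝[>] 0) (𝓝 c)) :
    Tendsto (fun n : ℕ => ENNReal.ofReal ((n:ℝ)+1) * ∫⁻ ω, (2 * Y ω)^(n+1) ∂μ) atTop (𝓝 (c/2)) := by
  set G : ℝ → ℝ≥0∞ := fun t => μ {ω | 1/2 - Y ω ≤ ENNReal.ofReal t} with hG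
  have hS : ∀ n, MeasurableSet {q : Ω × ℝ | 1/2 - Y q.1 ≤ ENNReal.ofReal (tau n q.2)} := by
    intro n
    exact measurableSet_le (measurable_const.sub (hY.comp measurable_fst))
      (((tau_meas n).comp measurable_snd).ennreal_ofReal)
  have hGm : ∀ n, Measurable (fun s => G (tau n s)) := by
    intro n
    exact measurable_measure_prodMk_right (hS n)
  -- step 1
  have h1 : ∀ n : ℕ, ∫⁻ ω, (2 * Y ω)^(n+1) ∂μ =
      ∫⁻ s in Ioi (0:ℝ), ENNReal.ofReal (Real.exp (-s)) * G (tau n s) := by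
    intro n
    have e1 : ∫⁻ ω, (2 * Y ω)^(n+1) ∂μ = ∫⁻ ω, (∫⁻ s in Ioi (0:ℝ), ENNReal.ofReal (Real.exp (-s)) *
      (if 1/2 - Y ω ≤ ENNReal.ofReal (tau n s) then 1 else 0)) ∂μ := by
      apply lintegral_congr_ae
      filter_upwards [hY1] with ω hω
      exact pow_rep _ hω n
    have e2 : Measurable (fun q : Ω × ℝ => ENNReal.ofReal (Real.exp (-q.2)) *
      (if 1/2 - Y q.1 ≤ ENNReal.ofReal (tau n q.2) then (1:ℝ≥0∞) else 0)) := by
      apply Measurable.mul
      · fun_prop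
      · exact Measurable.ite (hS n) measurable_const measurable_const
    rw [e1, lintegral_lintegral_swap (f := fun ω s => ENNReal.ofReal (Real.exp (-s)) *
      (if 1/2 - Y ω ≤ ENNReal.ofReal (tau n s) then (1:ℝ≥0∞) else 0)) e2.aemeasurable]
    apply lintegral_congr
    intro s
    have e3 : MeasurableSet {ω | 1/2 - Y ω ≤ ENNReal.ofReal (tau n s)} :=
      measurableSet_le (measurable_const.sub hY) measurable_const
    rw [lintegral_const_mul _ (Measurable.ite e3 measurable_const measurable_const)]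
    congr 1
    rw [hG]
    simp only
    rw [← lintegral_indicator_one e3]
    apply lintegral_congr
    intro ω
    by_cases h : 1/2 - Y ω ≤ ENNReal.ofReal (tau n s)
    · rw [if_pos h, indicator_of_mem (show ω ∈ {ω | 1/2 - Y ω ≤ ENNReal.ofReal (tau n s)} from h)]; rfl
    · rw [if_neg h, indicator_of_notMem (show ω ∉ {ω | 1/2 - Y ω ≤ ENNReal.ofReal (tau n s)} from h)]
  -- step 2
  obtain ⟨C, hC, hCb⟩ : ∃ C : ℝ≥0∞, C ≠ ⊤ ∧ ∀ t : ℝ, 0 < t → G t ≤ C * ENNReal.ofReal t := by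
    have h2 : ∀ᶠ t : ℝ in 𝓝[>] 0, G t / ENNReal.ofReal t < c + 1 :=
      (tendsto_order.mp hlim).2 (c+1) (ENNReal.lt_add_right hc one_ne_zero)
    obtain ⟨δ, hδ, hsub⟩ := mem_nhdsGT_iff_exists_Ioo_subset.mp h2
    have hδ' : 0 < δ := hδ
    have hδne : ENNReal.ofReal δ ≠ 0 := by simpa using hδ'
    refine ⟨(c+1) + (ENNReal.ofReal δ)⁻¹, ?_, ?_⟩
    · exact ENNReal.add_ne_top.mpr ⟨ENNReal.add_ne_top.mpr ⟨hc, ENNReal.one_ne_top⟩, ENNReal.inv_ne_top.mpr hδne⟩
    · intro t ht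
      have htne : ENNReal.ofReal t ≠ 0 := by simpa using ht
      rw [add_mul]
      by_cases htd : t < δ
      · have h3 : G t / ENNReal.ofReal t < c + 1 := hsub ⟨ht, htd⟩
        have h4 := (ENNReal.div_le_iff htne ENNReal.ofReal_ne_top).mp h3.le
        exact h4.trans le_self_add
      · push Not at htd
        have h5 : G t ≤ 1 := prob_le_one
        have h6 : (1:ℝ≥0∞) ≤ (ENNReal.ofReal δ)⁻¹ * ENNReal.ofReal t := by
          rw [← ENNReal.inv_mul_cancel hδne ENNReal.ofReal_ne_top]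
          exact mul_le_mul_right (ENNReal.ofReal_le_ofReal htd) _
        exact (h5.trans h6).trans le_add_self
  -- step 3
  have hn0 : ∀ n : ℕ, (0:ℝ) ≤ (n:ℝ)+1 := fun n => by positivity
  have h7 : ∀ n : ℕ, ENNReal.ofReal ((n:ℝ)+1) * ∫⁻ ω, (2 * Y ω)^(n+1) ∂μ =
      ∫⁻ s in Ioi (0:ℝ), ENNReal.ofReal (Real.exp (-s)) * (ENNReal.ofReal ((n:ℝ)+1) * G (tau n s)) := by
    intro n
    rw [h1, ← lintegral_const_mul _ (by
      exact Measurable.mul (by fun_prop) (hGm n))]
    apply lintegral_congr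
    intro s
    ring
  simp_rw [h7]
  have h8 : c/2 = ∫⁻ s in Ioi (0:ℝ), ENNReal.ofReal (Real.exp (-s)) * (ENNReal.ofReal (s/2) * c) := by
    have e4 : ∀ s : ℝ, ENNReal.ofReal (Real.exp (-s)) * (ENNReal.ofReal (s/2) * c) =
        (c/2) * (ENNReal.ofReal (Real.exp (-s)) * ENNReal.ofReal s) := by
      intro s
      rw [ENNReal.ofReal_div_of_pos (by norm_num), ENNReal.ofReal_ofNat, div_eq_mul_inv, div_eq_mul_inv]
      ring
    simp_rw [e4]
    rw [lintegral_const_mul _ (by fun_prop), gamma_two, mul_one]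
  rw [h8]
  refine tendsto_lintegral_of_dominated_convergence
    (fun s => C * (ENNReal.ofReal (Real.exp (-s)) * ENNReal.ofReal s)) ?_ ?_ ?_ ?_
  · intro n
    exact Measurable.mul (by fun_prop) ((hGm n).const_mul _)
  · intro n
    filter_upwards [ae_restrict_mem measurableSet_Ioi] with s hs
    have hs' : 0 < s := hs
    have e5 : ENNReal.ofReal ((n:ℝ)+1) * G (tau n s) ≤ C * ENNReal.ofReal s := by
      calc ENNReal.ofReal ((n:ℝ)+1) * G (tau n s) ≤
            ENNReal.ofReal ((n:ℝ)+1) * (C * ENNReal.ofReal (tau n s)) :=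
              mul_le_mul_right (hCb _ (tau_pos n hs')) _
        _ = C * ENNReal.ofReal (((n:ℝ)+1) * tau n s) := by
            rw [ENNReal.ofReal_mul (hn0 n)]; ring
        _ ≤ C * ENNReal.ofReal s := by
            apply mul_le_mul_right
            apply ENNReal.ofReal_le_ofReal
            have := tau_le n s
            linarith
    calc ENNReal.ofReal (Real.exp (-s)) * (ENNReal.ofReal ((n:ℝ)+1) * G (tau n s)) ≤
          ENNReal.ofReal (Real.exp (-s)) * (C * ENNReal.ofReal s) := mul_le_mul_right e5 _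
      _ = C * (ENNReal.ofReal (Real.exp (-s)) * ENNReal.ofReal s) := by ring
  · rw [lintegral_const_mul _ (by fun_prop), gamma_two, mul_one]
    exact hC
  · filter_upwards [ae_restrict_mem measurableSet_Ioi] with s hs
    have hs' : 0 < s := hs
    apply ENNReal.Tendsto.const_mul _ (Or.inr ENNReal.ofReal_ne_top)
    have e6 : Tendsto (fun n : ℕ => ENNReal.ofReal (((n:ℝ)+1) * tau n s) *
        (G (tau n s) / ENNReal.ofReal (tau n s))) atTop (𝓝 (ENNReal.ofReal (s/2) * c)) := by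
      apply ENNReal.Tendsto.mul
      · exact ENNReal.tendsto_ofReal (lim_scale s)
      · exact Or.inr hc
      · exact hlim.comp (tau_tendsto hs')
      · exact Or.inr ENNReal.ofReal_ne_top
    refine e6.congr (fun n => ?_)
    have htp := tau_pos n hs'
    have htne : ENNReal.ofReal (tau n s) ≠ 0 := by simpa using htp
    rw [ENNReal.ofReal_mul (hn0 n), mul_assoc]
    congr 1
    rw [ENNReal.mul_div_cancel htne ENNReal.ofReal_ne_top]

end Pool.Agent.R974.SA
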