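import Mathlib
import Pool.Agent.R974.SA.R2
import Pool.Agent.R974.SA.T

/-! Integration over `A` and assembly. -/

namespace Pool.Agent.R974.SA

open MeasureTheory ProbabilityTheory Filter Topology Set
open scoped ENNReal

variable {K : ℕ}

/-- deficit -/
noncomputable def Df {n m : ℕ} (X : Fin m → Fin n → ℝ) : ℝ≥0∞ := 1/2 - al X

theorem Df_meas {n m : ℕ} : Measurable (Df : (Fin m → Fin n → ℝ) → ℝ≥0∞) := by
  unfold Df; exact measurable_const.sub al_meas

theorem cons_meas : Measurable (fun p : (Fin (K+1) → ℝ) × (Fin K → Fin (K+1) → ℝ) =>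
    (Fin.cons p.1 p.2 : Fin (K+1) → Fin (K+1) → ℝ)) := by
  rw [measurable_pi_iff]
  intro i
  refine Fin.cases ?_ ?_ i
  · simp only [Fin.cons_zero]; exact measurable_fst
  · intro j
    simp only [Fin.cons_succ]
    exact (measurable_pi_apply j).comp measurable_snd

theorem meas_congr_ae {α : Type*} [MeasurableSpace α] {μ : Measure α} {P Q : α → Prop}
    (h : ∀ᵐ x ∂μ, (P x ↔ Q x)) : μ {x | P x} = μ {x | Q x} :=
  measure_congr (Filter.eventuallyEq_set.mpr h)

theorem fixedA (hK : 0 < K) (A : Fin K → Fin (K+1) → ℝ) : ∃ l : ℝ≥0∞,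
    Tendsto (fun t : ℝ => gam (K+1) {x | Df (Fin.cons x A : Fin (K+1) → Fin (K+1) → ℝ) ≤ ENNReal.ofReal t}
      / ENNReal.ofReal t) (𝓝[>] 0) (𝓝 l) ∧
    (LinearIndependent ℝ A → 0 < l) ∧
    (∀ t : ℝ, 0 < t → t < 1/2 → gam (K+1) {x | Df (Fin.cons x A : Fin (K+1) → Fin (K+1) → ℝ) ≤
      ENNReal.ofReal t} / ENNReal.ofReal t ≤ C1) ∧
    ∀ᵐ x ∂(gam (K+1)), al (Fin.cons x A : Fin (K+1) → Fin (K+1) → ℝ) ≤ 1/2 := by
  by_cases hA : LinearIndependent ℝ A
  · obtain ⟨N, u, hN, hu, huN, ⟨w, hw⟩, h⟩ := dual A hA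
    have hae : ∀ᵐ x ∂(gam (K+1)), dp N x ≠ 0 := by
      rw [ae_iff]
      simp only [not_not]
      exact gam_hyper N hN
    have hal : ∀ x, dp N x ≠ 0 → al (Fin.cons x A : Fin (K+1) → Fin (K+1) → ℝ) + DD (HH u x) (dp N x) = 1/2 :=
      fun x hx => al_add_DD A N u hN huN h x hx
    have hDf : ∀ x, dp N x ≠ 0 → Df (Fin.cons x A : Fin (K+1) → Fin (K+1) → ℝ) = DD (HH u x) (dp N x) := by
      intro x hx
      unfold Df
      symm
      apply ENNReal.eq_sub_of_add_eq
      · unfold al; exact measure_ne_top _ _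
      · rw [add_comm]; exact hal x hx
    have hset : ∀ t : ℝ, gam (K+1) {x | Df (Fin.cons x A : Fin (K+1) → Fin (K+1) → ℝ) ≤ ENNReal.ofReal t} =
        gam (K+1) {x | DD (HH u x) (dp N x) ≤ ENNReal.ofReal t} := by
      intro t
      apply meas_congr_ae
      filter_upwards [hae] with x hx
      rw [hDf x hx]
    refine ⟨ll u, ?_, fun _ => ll_pos u hu w hw, ?_, ?_⟩
    · simp_rw [hset]
      exact T_lim N hN u hu huN hK
    · intro t ht _
      rw [hset]
      exact T_dom2 N hN u hu huN hK ht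
    · filter_upwards [hae] with x hx
      rw [← hal x hx]
      exact le_self_add
  · have h0 : ∀ x, al (Fin.cons x A : Fin (K+1) → Fin (K+1) → ℝ) = 0 := by
      intro x
      apply dep
      rw [linearIndependent_finCons]
      tauto
    have hset : ∀ t : ℝ, t < 1/2 →
        gam (K+1) {x | Df (Fin.cons x A : Fin (K+1) → Fin (K+1) → ℝ) ≤ ENNReal.ofReal t} = 0 := by
      intro t ht
      have : {x | Df (Fin.cons x A : Fin (K+1) → Fin (K+1) → ℝ) ≤ ENNReal.ofReal t} = ∅ := by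
        ext x
        simp only [Set.mem_empty_iff_false, iff_false]
        intro hx
        have hx' : Df (Fin.cons x A : Fin (K+1) → Fin (K+1) → ℝ) ≤ ENNReal.ofReal t := hx
        unfold Df at hx'
        rw [h0, tsub_zero] at hx'
        have hhalf : (1:ℝ≥0∞)/2 = ENNReal.ofReal (1/2) := by
          rw [ENNReal.ofReal_div_of_pos (by norm_num)]; simp
        rw [hhalf] at hx'
        have h1 : ENNReal.ofReal t < ENNReal.ofReal (1/2) :=
          (ENNReal.ofReal_lt_ofReal_iff (by norm_num)).mpr ht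
        exact absurd hx' (not_le.mpr h1)
      rw [this, measure_empty]
    refine ⟨0, ?_, fun h => absurd h hA, ?_, ?_⟩
    · have h2 : ∀ᶠ t : ℝ in 𝓝[>] 0, t < 1/2 := nhdsWithin_le_nhds (eventually_lt_nhds (by norm_num))
      refine tendsto_const_nhds.congr' ?_
      filter_upwards [h2] with t ht
      rw [hset t ht, ENNReal.zero_div]
    · intro t _ ht
      rw [hset t ht, ENNReal.zero_div]; exact zero_le
    · refine Eventually.of_forall (fun x => ?_)
      rw [h0]; exact zero_le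

theorem pi_cons {S : Set (Fin (K+1) → Fin (K+1) → ℝ)} (hS : MeasurableSet S) :
    (Measure.pi fun _ : Fin (K+1) => gam (K+1)) S =
      ∫⁻ A, gam (K+1) {x | (Fin.cons x A : Fin (K+1) → Fin (K+1) → ℝ) ∈ S}
        ∂(Measure.pi fun _ : Fin K => gam (K+1)) := by
  have h := (measurePreserving_piFinSuccAbove (fun _ : Fin (K+1) => gam (K+1)) 0).symm
  rw [← h.measure_preimage hS.nullMeasurableSet, Measure.prod_apply_symm (h.measurable hS)]
  apply lintegral_congr
  intro A
  congr 1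
  ext x
  show Fin.insertNth 0 x A ∈ S ↔ Fin.cons x A ∈ S
  rw [Fin.insertNth_zero']

theorem al_le_ae (hK : 0 < K) :
    ∀ᵐ X ∂(Measure.pi fun _ : Fin (K+1) => gam (K+1)), al X ≤ 1/2 := by
  rw [ae_iff]
  rw [pi_cons (by
    have : MeasurableSet {X : Fin (K+1) → Fin (K+1) → ℝ | al X ≤ 1/2} :=
      measurableSet_le al_meas measurable_const
    exact this.compl)]
  rw [lintegral_eq_zero_iff' (by
    have h1 : MeasurableSet {p : (Fin K → Fin (K+1) → ℝ) × (Fin (K+1) → ℝ) |
        ¬ al (Fin.cons p.2 p.1 : Fin (K+1) → Fin (K+1) → ℝ) ≤ 1/2} := by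
      have h2 : MeasurableSet {p : (Fin K → Fin (K+1) → ℝ) × (Fin (K+1) → ℝ) |
        al (Fin.cons p.2 p.1 : Fin (K+1) → Fin (K+1) → ℝ) ≤ 1/2} :=
        measurableSet_le (al_meas.comp (cons_meas.comp measurable_swap)) measurable_const
      exact h2.compl
    exact (measurable_measure_prodMk_left h1).aemeasurable)]
  refine Eventually.of_forall (fun A => ?_)
  obtain ⟨_, _, _, _, h⟩ := fixedA hK A
  exact h

theorem core (hK : 0 < K) : ∃ c : ℝ≥0∞, c ≠ ⊤ ∧ 0 < c ∧
    Tendsto (fun t : ℝ => (Measure.pi fun _ : Fin (K+1) => gam (K+1)) {X | 1/2 - al X ≤ ENNReal.ofReal t} /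
      ENNReal.ofReal t) (𝓝[>] 0) (𝓝 c) := by
  choose l hl hpos hdom hle using (fixedA hK : ∀ A : Fin K → Fin (K+1) → ℝ, _)
  have hjm : ∀ t : ℝ, Measurable (fun A : Fin K → Fin (K+1) → ℝ =>
      gam (K+1) {x | Df (Fin.cons x A : Fin (K+1) → Fin (K+1) → ℝ) ≤ ENNReal.ofReal t}) := by
    intro t
    have h1 : MeasurableSet {p : (Fin K → Fin (K+1) → ℝ) × (Fin (K+1) → ℝ) |
        Df (Fin.cons p.2 p.1 : Fin (K+1) → Fin (K+1) → ℝ) ≤ ENNReal.ofReal t} :=
      measurableSet_le (Df_meas.comp (cons_meas.comp measurable_swap)) measurable_const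
    exact measurable_measure_prodMk_left h1
  have hlm : Measurable l := by
    have h2 : Tendsto (fun n : ℕ => 1/((n:ℝ)+1)) atTop (𝓝[>] 0) := by
      rw [tendsto_nhdsWithin_iff]
      refine ⟨tendsto_one_div_add_atTop_nhds_zero_nat, Eventually.of_forall (fun n => ?_)⟩
      show 0 < 1/((n:ℝ)+1)
      positivity
    refine measurable_of_tendsto_metrizable (f := fun (n : ℕ) A =>
      gam (K+1) {x | Df (Fin.cons x A : Fin (K+1) → Fin (K+1) → ℝ) ≤ ENNReal.ofReal (1/((n:ℝ)+1))} /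
        ENNReal.ofReal (1/((n:ℝ)+1))) ?_ ?_
    · intro n
      simp_rw [div_eq_mul_inv]
      exact (hjm _).mul_const _
    · rw [tendsto_pi_nhds]
      intro A
      exact (hl A).comp h2
  have hlC : ∀ A, l A ≤ C1 := by
    intro A
    refine le_of_tendsto (hl A) ?_
    have h2 : ∀ᶠ t : ℝ in 𝓝[>] 0, t < 1/2 := nhdsWithin_le_nhds (eventually_lt_nhds (by norm_num))
    filter_upwards [h2, self_mem_nhdsWithin] with t ht1 ht2
    exact hdom A t ht2 ht1
  refine ⟨∫⁻ A, l A ∂(Measure.pi fun _ : Fin K => gam (K+1)), ?_, ?_, ?_⟩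
  · apply ne_top_of_le_ne_top C1_ne
    calc ∫⁻ A, l A ∂(Measure.pi fun _ : Fin K => gam (K+1)) ≤
          ∫⁻ A, C1 ∂(Measure.pi fun _ : Fin K => gam (K+1)) := lintegral_mono hlC
      _ = C1 := by rw [lintegral_const, measure_univ, mul_one]
  · rw [lintegral_pos_iff_support hlm]
    have hO : IsOpen {A : Fin K → Fin (K+1) → ℝ | LinearIndependent ℝ A} :=
      isOpen_setOfPred_linearIndependent
    have hne : {A : Fin K → Fin (K+1) → ℝ | LinearIndependent ℝ A}.Nonempty :=
      ⟨_, (Pi.basisFun ℝ (Fin (K+1))).linearIndependent.comp Fin.succ (Fin.succ_injective K)⟩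
    have hop : (Measure.pi fun _ : Fin K => gam (K+1)).IsOpenPosMeasure := by
      have : ∀ i : Fin K, ((fun _ : Fin K => gam (K+1)) i).IsOpenPosMeasure :=
        fun _ => (inferInstance : (gam (K+1)).IsOpenPosMeasure)
      exact Measure.pi.isOpenPosMeasure _
    refine lt_of_lt_of_le (hO.measure_pos _ hne) (measure_mono ?_)
    intro A hA
    exact (hpos A hA).ne'
  · have h4 : ∀ t : ℝ, (Measure.pi fun _ : Fin (K+1) => gam (K+1)) {X | 1/2 - al X ≤ ENNReal.ofReal t} /
        ENNReal.ofReal t = ∫⁻ A, gam (K+1) {x | Df (Fin.cons x A : Fin (K+1) → Fin (K+1) → ℝ) ≤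
          ENNReal.ofReal t} / ENNReal.ofReal t ∂(Measure.pi fun _ : Fin K => gam (K+1)) := by
      intro t
      rw [pi_cons (S := {X | 1/2 - al X ≤ ENNReal.ofReal t})
        (measurableSet_le (measurable_const.sub al_meas) measurable_const)]
      simp_rw [div_eq_mul_inv]
      rw [lintegral_mul_const _ (hjm t)]
      congr 1
    simp_rw [h4]
    refine tendsto_lintegral_filter_of_dominated_convergence (fun _ => C1) ?_ ?_ ?_ ?_
    · refine Eventually.of_forall (fun t => ?_)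
      simp_rw [div_eq_mul_inv]
      exact (hjm t).mul_const _
    · have h2 : ∀ᶠ t : ℝ in 𝓝[>] 0, t < 1/2 := nhdsWithin_le_nhds (eventually_lt_nhds (by norm_num))
      filter_upwards [h2, self_mem_nhdsWithin] with t ht1 ht2
      exact Eventually.of_forall (fun A => hdom A t ht2 ht1)
    · rw [lintegral_const, measure_univ, mul_one]; exact C1_ne
    · exact Eventually.of_forall hl

theorem PG_eq (k d : ℕ) :
    PG k d = ∫⁻ X : Fin k → Fin k → ℝ, (al X)^d ∂(Measure.pi fun _ : Fin k => gam k) := by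
  unfold PG
  have hm : MeasurableSet {p : (Fin k → Fin k → ℝ) × (Fin d → Fin k → ℝ) | ∀ j, InPos p.1 (p.2 j)} := by
    have : {p : (Fin k → Fin k → ℝ) × (Fin d → Fin k → ℝ) | ∀ j, InPos p.1 (p.2 j)} =
        ⋂ j, {p | InPos p.1 (p.2 j)} := by
      ext p; simp only [Set.mem_iInter]; rfl
    rw [this]
    apply MeasurableSet.iInter
    intro j
    exact (inpos_meas k k).preimage (measurable_fst.prodMk ((measurable_pi_apply j).comp measurable_snd))
  rw [Measure.prod_apply hm]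
  apply lintegral_congr
  intro X
  have h1 : Prod.mk X ⁻¹' {p : (Fin k → Fin k → ℝ) × (Fin d → Fin k → ℝ) | ∀ j, InPos p.1 (p.2 j)} =
      Set.pi Set.univ (fun _ => {v | InPos X v}) := by
    ext V
    rw [Set.mem_univ_pi]; rfl
  rw [h1, Measure.pi_pi, Finset.prod_const, Finset.card_univ, Fintype.card_fin]
  rfl

theorem main (hS : StmS) (hD : StmD) (k : ℕ) (hk : 2 ≤ k) :
    ∃ c : ℝ, 0 < c ∧ Tendsto (fun d : ℕ => 2^d * (d:ℝ) * m d k) atTop (𝓝 c) := by
  obtain ⟨K, rfl⟩ : ∃ K, k = K + 1 := ⟨k - 1, by omega⟩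
  have hK : 0 < K := by omega
  obtain ⟨c, hc, hc0, hlim⟩ := core hK
  have h1 := tauber (Measure.pi fun _ : Fin (K+1) => gam (K+1)) al al_meas (al_le_ae hK) c hc hlim
  have hc2 : c/2 ≠ ⊤ := ENNReal.div_ne_top hc (by norm_num)
  have hc2' : c/2 ≠ 0 := by
    intro h
    rw [ENNReal.div_eq_zero_iff] at h
    rcases h with h | h
    · exact hc0.ne' h
    · norm_num at h
  refine ⟨(c/2).toReal, ENNReal.toReal_pos hc2' hc2, ?_⟩
  rw [← tendsto_add_atTop_iff_nat 1]
  refine ((ENNReal.tendsto_toReal hc2).comp h1).congr (fun n => ?_)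
  simp only [Function.comp]
  have h2 : ∫⁻ X, (2 * al X)^(n+1) ∂(Measure.pi fun _ : Fin (K+1) => gam (K+1)) =
      2^(n+1) * PG (n+1) (K+1) := by
    rw [hD (n+1) (K+1) (by omega) (by omega), PG_eq]
    simp_rw [mul_pow]
    rw [lintegral_const_mul _ (al_meas.pow_const _)]
  rw [h2, hS (n+1) (K+1) (by omega), ENNReal.toReal_mul, ENNReal.toReal_mul, ENNReal.toReal_ofReal (by positivity),
    ENNReal.toReal_pow, ENNReal.toReal_ofNat]
  push_cast
  ring

end Pool.Agent.R974.SA
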